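import Pool.Agent.MP_afae70_pr.LL.Est

/-!
# The independent model for the set of cycle lengths
-/

open Finset

namespace Pool.Agent.MP_afae70_pr.LL

/-- Probability that the length `j` occurs. -/
noncomputable def pr (α : ℝ) (j : ℕ) : ℝ := 1 - Real.exp (-(α / j))

/-- Weight of the subset `X` of `B`. -/
noncomputable def wt (α : ℝ) (B X : Finset ℕ) : ℝ :=
  ∏ j ∈ B, if j ∈ X then pr α j else 1 - pr α j

/-- Expectation over a random subset of `B`. -/
noncomputable def Eb (α : ℝ) (B : Finset ℕ) (F : Finset ℕ → ℝ) : ℝ :=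
  ∑ X ∈ B.powerset, wt α B X * F X

/-- Expectation over `N` independent random subsets of `B`. -/
noncomputable def EN (α : ℝ) (N : ℕ) (B : Finset ℕ) (F : (Fin N → Finset ℕ) → ℝ) : ℝ :=
  ∑ X ∈ Fintype.piFinset (fun _ : Fin N => B.powerset), (∏ i, wt α B (X i)) * F X

variable {α : ℝ}

lemma pr_nonneg (hα : 0 < α) (j : ℕ) : 0 ≤ pr α j := by
  have : Real.exp (-(α / j)) ≤ 1 := Real.exp_le_one_iff.2 (by
    have : 0 ≤ α / j := by positivity
    linarith)
  unfold pr; linarith

lemma one_sub_pr (α : ℝ) (j : ℕ) : 1 - pr α j = Real.exp (-(α / j)) := by unfold pr; ring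

lemma pr_le (α : ℝ) (j : ℕ) : pr α j ≤ α / j := by
  have := Real.add_one_le_exp (-(α / j))
  unfold pr; linarith

lemma wt_nonneg (hα : 0 < α) (B X : Finset ℕ) : 0 ≤ wt α B X := by
  apply prod_nonneg
  intro j _
  split_ifs
  · exact pr_nonneg hα j
  · rw [one_sub_pr]; positivity

lemma Eb_empty (α : ℝ) (F : Finset ℕ → ℝ) : Eb α ∅ F = F ∅ := by simp [Eb, wt]

lemma Eb_insert (α : ℝ) {B : Finset ℕ} {j : ℕ} (hj : j ∉ B) (F : Finset ℕ → ℝ) :
    Eb α (insert j B) F = (1 - pr α j) * Eb α B F + pr α j * Eb α B (fun X => F (insert j X)) := by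
  unfold Eb
  rw [sum_powerset_insert hj, mul_sum, mul_sum]
  congr 1
  · apply sum_congr rfl
    intro X hX
    have : j ∉ X := fun h => hj (mem_powerset.1 hX h)
    unfold wt
    rw [prod_insert hj, if_neg this, mul_assoc]
  · apply sum_congr rfl
    intro X _
    unfold wt
    rw [prod_insert hj, if_pos (mem_insert_self _ _), mul_assoc]
    congr 2
    apply prod_congr rfl
    intro a ha
    have : a ≠ j := fun h => hj (h ▸ ha)
    simp [this]

lemma Eb_mono (hα : 0 < α) (B : Finset ℕ) {F G : Finset ℕ → ℝ} (h : ∀ X ⊆ B, F X ≤ G X) :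
    Eb α B F ≤ Eb α B G :=
  sum_le_sum fun X hX => mul_le_mul_of_nonneg_left (h X (mem_powerset.1 hX)) (wt_nonneg hα _ _)

lemma Eb_const (α : ℝ) (B : Finset ℕ) (c : ℝ) : Eb α B (fun _ => c) = c := by
  induction B using Finset.induction_on with
  | empty => exact Eb_empty _ _
  | insert j B hj ih => rw [Eb_insert α hj, ih]; ring

lemma Eb_affine (α : ℝ) (B : Finset ℕ) (a c : ℝ) (F : Finset ℕ → ℝ) :
    Eb α B (fun X => a + c * F X) = a + c * Eb α B F := by
  have := Eb_const α B a
  unfold Eb at this ⊢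
  simp only [mul_add, sum_add_distrib, this, mul_sum, mul_left_comm]

lemma Eb_add (α : ℝ) (B : Finset ℕ) (F G : Finset ℕ → ℝ) :
    Eb α B (fun X => F X + G X) = Eb α B F + Eb α B G := by
  unfold Eb
  simp only [mul_add, sum_add_distrib]

lemma Eb_nonneg (hα : 0 < α) (B : Finset ℕ) {F : Finset ℕ → ℝ} (h : ∀ X, 0 ≤ F X) :
    0 ≤ Eb α B F := sum_nonneg fun X _ => mul_nonneg (wt_nonneg hα _ _) (h X)

lemma Eb_union (α : ℝ) {B C : Finset ℕ} (h : Disjoint B C) (F : Finset ℕ → ℝ) :
    Eb α (B ∪ C) F = Eb α B (fun X => Eb α C (fun Y => F (X ∪ Y))) := by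
  induction B using Finset.induction_on generalizing F with
  | empty => simp [Eb_empty]
  | insert j B hj ih =>
    rw [disjoint_insert_left] at h
    rw [insert_union, Eb_insert α (by simp [hj, h.1]), Eb_insert α hj, ih h.2, ih h.2]
    simp only [insert_union]

lemma Eb_miss (α : ℝ) (B H : Finset ℕ) :
    Eb α B (fun Y => ind (Disjoint Y H)) = Real.exp (-∑ j ∈ B ∩ H, α / j) := by
  induction B using Finset.induction_on with
  | empty => simp [Eb_empty, ind_pos]
  | insert j B hj ih =>
    rw [Eb_insert α hj, ih]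
    by_cases h : j ∈ H
    · have : ∀ X : Finset ℕ, ind (Disjoint (insert j X) H) = 0 := fun X =>
        ind_neg (by simp [h])
      simp only [this, Eb_const]
      rw [insert_inter_of_mem h, sum_insert (by simp [hj]), one_sub_pr, mul_zero, add_zero,
        ← Real.exp_add]
      congr 1; ring
    · have : ∀ X : Finset ℕ, ind (Disjoint (insert j X) H) = ind (Disjoint X H) := fun X => by
        simp [h]
      simp only [this, ih]
      rw [insert_inter_of_notMem h]; ring

lemma Eb_sum_le (hα : 0 < α) (B : Finset ℕ) :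
    Eb α B (fun Y => ∑ j ∈ Y, (j : ℝ)) ≤ α * B.card := by
  induction B using Finset.induction_on with
  | empty => simp [Eb_empty]
  | insert j B hj ih =>
    rw [Eb_insert α hj, card_insert_of_notMem hj]
    have h1 : Eb α B (fun X => ∑ a ∈ insert j X, (a : ℝ)) ≤
        Eb α B (fun X => j + 1 * ∑ a ∈ X, (a : ℝ)) := by
      apply Eb_mono hα
      intro X hX
      rw [sum_insert (fun h => hj (hX h)), one_mul]
    rw [Eb_affine] at h1
    have h2 := pr_nonneg hα j
    have h3 : pr α j * j ≤ α := by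
      rcases Nat.eq_zero_or_pos j with rfl | h
      · simp [hα.le]
      · have := pr_le α j
        rwa [le_div_iff₀ (by exact_mod_cast h)] at this
    have h4 := mul_le_mul_of_nonneg_left h1 h2
    push_cast
    nlinarith

lemma Eb_point (α : ℝ) {B Z : Finset ℕ} (h : Z ⊆ B) :
    Eb α B (fun X => ind (X = Z)) = wt α B Z := by
  unfold Eb
  rw [sum_eq_single Z]
  · simp only [ind_pos, mul_one]
  · intro X _ hX; simp only [ind_neg hX, mul_zero]
  · intro h'; exact absurd (mem_powerset.2 h) h'

variable {N : ℕ}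

lemma EN_prod (α : ℝ) (B : Finset ℕ) (f : Fin N → Finset ℕ → ℝ) :
    EN α N B (fun X => ∏ i, f i (X i)) = ∏ i, Eb α B (f i) := by
  unfold EN Eb
  rw [prod_univ_sum]
  simp only [prod_mul_distrib]

lemma EN_mono (hα : 0 < α) (B : Finset ℕ) {F G : (Fin N → Finset ℕ) → ℝ}
    (h : ∀ X, (∀ i, X i ⊆ B) → F X ≤ G X) : EN α N B F ≤ EN α N B G :=
  sum_le_sum fun X hX => mul_le_mul_of_nonneg_left
    (h X fun i => mem_powerset.1 (Fintype.mem_piFinset.1 hX i))
    (prod_nonneg fun _ _ => wt_nonneg hα _ _)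

lemma EN_const (α : ℝ) (B : Finset ℕ) (c : ℝ) : EN α N B (fun _ => c) = c := by
  have := EN_prod (N := N) α B (fun _ _ => 1)
  simp only [prod_const_one, Eb_const] at this
  unfold EN at this ⊢
  simp only [mul_one] at this
  rw [← sum_mul, this, one_mul]

lemma EN_affine (α : ℝ) (B : Finset ℕ) (a c : ℝ) (F : (Fin N → Finset ℕ) → ℝ) :
    EN α N B (fun X => a + c * F X) = a + c * EN α N B F := by
  have := EN_const (N := N) α B a
  unfold EN at this ⊢
  simp only [mul_add, sum_add_distrib, this, mul_sum, mul_left_comm]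

lemma EN_add (α : ℝ) (B : Finset ℕ) (F G : (Fin N → Finset ℕ) → ℝ) :
    EN α N B (fun X => F X + G X) = EN α N B F + EN α N B G := by
  unfold EN
  simp only [mul_add, sum_add_distrib]

lemma EN_single (α : ℝ) (B : Finset ℕ) (i : Fin N) (f : Finset ℕ → ℝ) :
    EN α N B (fun X => f (X i)) = Eb α B f := by
  have := EN_prod (N := N) α B (fun k X => if k = i then f X else 1)
  simp only [prod_ite_eq', mem_univ, if_true] at this
  rw [this, prod_eq_single i]
  · simp
  · intro k _ hk
    simp [hk, Eb_const]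
  · simp

lemma EN_sum_single (α : ℝ) (B : Finset ℕ) (f : Fin N → Finset ℕ → ℝ) :
    EN α N B (fun X => ∑ i, f i (X i)) = ∑ i, Eb α B (f i) := by
  rw [← sum_congr rfl fun i _ => EN_single α B i (f i)]
  unfold EN
  rw [sum_comm]
  simp only [mul_sum]

lemma wt_union (α : ℝ) {B C X Y : Finset ℕ} (h : Disjoint B C) (hX : X ⊆ B) (hY : Y ⊆ C) :
    wt α (B ∪ C) (X ∪ Y) = wt α B X * wt α C Y := by
  unfold wt
  rw [prod_union h]
  congr 1
  · apply prod_congr rfl
    intro j hj
    have : j ∉ Y := fun h' => disjoint_left.1 h hj (hY h')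
    simp [this]
  · apply prod_congr rfl
    intro j hj
    have : j ∉ X := fun h' => disjoint_left.1 h (hX h') hj
    simp [this]

lemma EN_union (α : ℝ) {B C : Finset ℕ} (h : Disjoint B C) (F : (Fin N → Finset ℕ) → ℝ) :
    EN α N (B ∪ C) F = EN α N B (fun X => EN α N C (fun Y => F (fun i => X i ∪ Y i))) := by
  unfold EN
  simp only [mul_sum]
  rw [← sum_product']
  symm
  apply sum_nbij' (fun p i => p.1 i ∪ p.2 i) (fun Z => (fun i => Z i ∩ B, fun i => Z i ∩ C))
  · intro p hp
    simp only [mem_product, Fintype.mem_piFinset, mem_powerset] at hp ⊢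
    exact fun i => union_subset_union (hp.1 i) (hp.2 i)
  · intro Z _
    simp only [mem_product, Fintype.mem_piFinset, mem_powerset]
    exact ⟨fun i => inter_subset_right, fun i => inter_subset_right⟩
  · intro p hp
    simp only [mem_product, Fintype.mem_piFinset, mem_powerset] at hp
    ext i j
    · simp only [mem_inter, mem_union]
      exact ⟨fun h' => h'.1.resolve_right fun h2 => disjoint_left.1 h h'.2 (hp.2 i h2),
        fun h' => ⟨Or.inl h', hp.1 i h'⟩⟩
    · simp only [mem_inter, mem_union]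
      exact ⟨fun h' => h'.1.resolve_left fun h2 => disjoint_left.1 h (hp.1 i h2) h'.2,
        fun h' => ⟨Or.inr h', hp.2 i h'⟩⟩
  · intro Z hZ
    simp only [Fintype.mem_piFinset, mem_powerset] at hZ
    funext i
    rw [← inter_union_distrib_left, inter_eq_left.2 (hZ i)]
  · intro p hp
    simp only [mem_product, Fintype.mem_piFinset, mem_powerset] at hp
    rw [← mul_assoc, ← prod_mul_distrib]
    congr 1
    exact prod_congr rfl fun i _ => (wt_union α h (hp.1 i) (hp.2 i)).symm

end Pool.Agent.MP_afae70_pr.LL
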