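import Pool.Agent.MP_afae70_pr.LL.Bern

/-!
# Subset sums in the independent model: a drift inequality
-/

open Finset Filter

namespace Pool.Agent.MP_afae70_pr.LL

/-- The subset sums of a finite set. -/
def sums (X : Finset ℕ) : Finset ℕ := X.powerset.image (fun T => ∑ j ∈ T, j)

lemma sums_mono {X Y : Finset ℕ} (h : X ⊆ Y) : sums X ⊆ sums Y :=
  image_subset_image (powerset_mono.2 h)

lemma card_sums_pos (X : Finset ℕ) : 0 < (sums X).card :=
  card_pos.2 ⟨0, mem_image.2 ⟨∅, empty_mem_powerset _, by simp⟩⟩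

lemma add_mem_sums {X : Finset ℕ} {j a : ℕ} (hj : j ∉ X) (ha : a ∈ sums X) :
    a + j ∈ sums (insert j X) := by
  obtain ⟨T, hT, rfl⟩ := mem_image.1 ha
  rw [mem_powerset] at hT
  refine mem_image.2 ⟨insert j T, mem_powerset.2 (insert_subset_insert _ hT), ?_⟩
  rw [sum_insert (fun h => hj (hT h)), add_comm]

lemma le_of_mem_sums {X : Finset ℕ} {a : ℕ} (ha : a ∈ sums X) : a ≤ ∑ j ∈ X, j := by
  obtain ⟨T, hT, rfl⟩ := mem_image.1 ha
  exact sum_le_sum_of_subset (mem_powerset.1 hT)

/-- Number of coincidences between `A` and its translate by `j`. -/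
def coll (A : Finset ℕ) (j : ℕ) : ℕ := (A.filter (fun a => a + j ∈ A)).card

lemma sum_coll_le (A H : Finset ℕ) : ∑ j ∈ H, coll A j ≤ A.card * A.card := by
  unfold coll
  simp only [card_filter]
  rw [sum_comm, ← smul_eq_mul]
  apply sum_le_card_nsmul
  intro a _
  rw [← card_filter]
  apply card_le_card_of_injOn (fun j => a + j)
  · intro j hj
    exact (mem_filter.1 hj).2
  · intro i _ j _ h
    exact Nat.add_left_cancel h

lemma card_bad_le (A H : Finset ℕ) (hA : 0 < A.card) (M : ℕ) :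
    (H.filter (fun j => ¬ M * coll A j ≤ A.card)).card ≤ M * A.card := by
  set B := H.filter (fun j => ¬ M * coll A j ≤ A.card)
  have h1 := card_nsmul_le_sum B (fun j => M * coll A j) A.card
    (fun j hj => (not_le.1 (mem_filter.1 hj).2).le)
  rw [← mul_sum, smul_eq_mul] at h1
  have h2 := Nat.mul_le_mul_left M (sum_coll_le A B)
  apply Nat.le_of_mul_le_mul_right _ hA
  rw [mul_assoc]
  exact h1.trans h2

lemma card_sums_insert {X : Finset ℕ} {j : ℕ} (hj : j ∉ X) :
    2 * (sums X).card ≤ (sums (insert j X)).card + coll (sums X) j := by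
  set A := sums X
  have h1 : A ∪ A.image (· + j) ⊆ sums (insert j X) := by
    apply union_subset (sums_mono (subset_insert _ _))
    intro b hb
    obtain ⟨a, ha, rfl⟩ := mem_image.1 hb
    exact add_mem_sums hj ha
  have h2 : A ∩ A.image (· + j) ⊆ (A.filter (fun a => a + j ∈ A)).image (· + j) := by
    intro b hb
    obtain ⟨h3, h4⟩ := mem_inter.1 hb
    obtain ⟨a, ha, rfl⟩ := mem_image.1 h4
    exact mem_image.2 ⟨a, mem_filter.2 ⟨ha, h3⟩, rfl⟩
  have h3 := card_union_add_card_inter A (A.image (· + j))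
  rw [card_image_of_injective _ (add_left_injective j)] at h3
  have h4 := card_le_card h1
  have h5 := (card_le_card h2).trans card_image_le
  unfold coll
  omega

variable {α : ℝ}

lemma one_sub_exp_neg {y : ℝ} (hy : 0 ≤ y) : y * (1 - y) ≤ 1 - Real.exp (-y) := by
  have h1 := Real.add_one_le_exp y
  have h2 : Real.exp y * Real.exp (-y) = 1 := by rw [← Real.exp_add]; simp
  have h3 := Real.exp_pos (-y)
  have h4 := mul_le_mul_of_nonneg_right h1 h3.le
  have h5 : 0 ≤ y ^ 3 := by positivity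
  apply le_of_mul_le_mul_left _ (show 0 < y + 1 by linarith)
  nlinarith

lemma params (hα : 1 / Real.log 2 < α) : ∃ (M : ℕ) (ρ : ℝ), 2 ≤ M ∧ ρ < 1 ∧
    2 * (M : ℝ) / (2 * M + 1) ≤ ρ ∧ ∀ x : ℝ, (M : ℝ)⁻¹ / 2 ≤ x → x ≤ (M : ℝ)⁻¹ →
      (1 + x) ^ (M : ℝ)⁻¹ * ((2 - (M : ℝ)⁻¹)⁻¹ ^ (M : ℝ)⁻¹ + (1 - (2 - (M : ℝ)⁻¹)⁻¹ ^ (M : ℝ)⁻¹) *
        Real.exp (-(α * x * (1 - (M : ℝ)⁻¹) / (1 + (M : ℝ)⁻¹)))) ≤ ρ := by
  have hl2 : 0 < Real.log 2 := Real.log_pos (by norm_num)
  have hα0 : 0 < α := lt_trans (by positivity) hα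
  let f : ℝ → ℝ := fun t =>
    α * (1 - t) / (1 + t) * (1 - α * t) * (Real.log (2 - t) * (1 - t * Real.log (2 - t)))
  have hf : ContinuousAt f 0 := by
    unfold f
    fun_prop (disch := norm_num)
  have hf0 : 1 < f 0 := by
    rw [div_lt_iff₀ hl2] at hα
    simpa [f] using hα
  have ht : Tendsto (fun M : ℕ => (M : ℝ)⁻¹) atTop (nhds 0) := tendsto_inv_atTop_nhds_zero_nat
  obtain ⟨M, h1, h2, h3⟩ := (((hf.tendsto.comp ht).eventually (lt_mem_nhds hf0)).and
    ((eventually_ge_atTop 2).and (eventually_ge_atTop ⌈α⌉₊))).exists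
  simp only [Function.comp] at h1
  have hM2 : (2 : ℝ) ≤ M := by exact_mod_cast h2
  have hMα : α ≤ M := (Nat.le_ceil α).trans (by exact_mod_cast h3)
  set t := (M : ℝ)⁻¹ with htdef
  have ht0 : 0 < t := by positivity
  have htM : t * M = 1 := by rw [htdef]; field_simp
  have ht2 : t ≤ 1 / 2 := by nlinarith
  have hαt : α * t ≤ 1 := by nlinarith
  refine ⟨M, max (2 * (M : ℝ) / (2 * M + 1)) (Real.exp (-(t * (t / 2) * (f t - 1)))), h2, ?_,
    le_max_left _ _, fun x hx1 hx2 => le_trans ?_ (le_max_right _ _)⟩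
  · apply max_lt
    · rw [div_lt_one (by positivity)]; linarith
    · apply Real.exp_lt_one_iff.2
      have : 0 < t * (t / 2) * (f t - 1) := mul_pos (by positivity) (by linarith)
      linarith
  have hx0 : 0 < x := by linarith
  set L := Real.log (2 - t) with hL
  have hL0 : 0 ≤ L := Real.log_nonneg (by linarith)
  have hL1 : L ≤ 1 := by
    have := Real.log_le_sub_one_of_pos (show 0 < 2 - t by linarith)
    linarith
  have hκ : (2 - t)⁻¹ ^ t = Real.exp (-(t * L)) := by
    rw [Real.rpow_def_of_pos (inv_pos.2 (by linarith)), Real.log_inv]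
    congr 1; ring
  set z := α * x * (1 - t) / (1 + t) with hz
  have hz0 : 0 ≤ z := div_nonneg (mul_nonneg (by positivity) (by linarith)) (by linarith)
  have hz1 : z ≤ α * t := by
    rw [hz, div_le_iff₀ (by linarith)]
    have a1 : α * x ≤ α * t := mul_le_mul_of_nonneg_left hx2 hα0.le
    have a2 : 0 ≤ α * x := by positivity
    have a3 : 0 ≤ α * t := by positivity
    nlinarith
  have a1 := one_sub_exp_neg (show 0 ≤ t * L by positivity)
  have a2 : z * (1 - α * t) ≤ 1 - Real.exp (-z) :=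
    le_trans (mul_le_mul_of_nonneg_left (by linarith) hz0) (one_sub_exp_neg hz0)
  have a3 : 0 ≤ t * L * (1 - t * L) := mul_nonneg (by positivity) (by nlinarith)
  have a4 := mul_le_mul a1 a2 (mul_nonneg hz0 (by linarith)) (a3.trans a1)
  have a5 : t * L * (1 - t * L) * (z * (1 - α * t)) = t * x * f t := by
    simp only [f, hz, ← hL]; ring
  have a6 : (1 + x) ^ t ≤ Real.exp (t * x) := by
    rw [Real.rpow_def_of_pos (by linarith)]
    apply Real.exp_le_exp.2
    have := Real.log_le_sub_one_of_pos (show 0 < 1 + x by linarith)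
    nlinarith
  have a7 : Real.exp (-(t * L)) + (1 - Real.exp (-(t * L))) * Real.exp (-z) ≤
      Real.exp (-(t * x * f t)) := by
    have := Real.add_one_le_exp (-(t * x * f t))
    nlinarith
  rw [hκ]
  refine (mul_le_mul a6 a7 ?_ (Real.exp_pos _).le).trans ?_
  · have := a3.trans a1
    positivity
  · rw [← Real.exp_add]
    apply Real.exp_le_exp.2
    have := mul_le_mul_of_nonneg_right (mul_le_mul_of_nonneg_left hx1 ht0.le)
      (show 0 ≤ f t - 1 by linarith)
    nlinarith

/-- The potential: sparsity of the subset sums plus total length, at scale `u`. -/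
noncomputable def WW (M u : ℕ) (X : Finset ℕ) : ℝ :=
  ((u : ℝ) / (sums X).card) ^ (M : ℝ)⁻¹ + (∑ j ∈ X, (j : ℝ)) / u

lemma WW_nonneg (M u : ℕ) (X : Finset ℕ) : 0 ≤ WW M u X := by
  unfold WW
  have : 0 ≤ ∑ j ∈ X, (j : ℝ) := sum_nonneg fun _ _ => by positivity
  positivity

lemma drift (hα : 1 / Real.log 2 < α) : ∃ (M : ℕ) (ρ C : ℝ), 2 ≤ M ∧ 0 < ρ ∧ ρ < 1 ∧ 0 < C ∧
    ∀ u : ℕ, M ≤ u → ∀ X : Finset ℕ, (∀ j ∈ X, j < u) →
      Eb α (Ico u (u + u / M)) (fun Y => WW M (u + u / M) (X ∪ Y)) ≤ ρ * WW M u X + C := by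
  have hl2 : 0 < Real.log 2 := Real.log_pos (by norm_num)
  have hα0 : 0 < α := lt_trans (by positivity) hα
  obtain ⟨M, ρ, hM, hρ1, hρ2, hρ⟩ := params hα
  have hM2 : (2 : ℝ) ≤ M := by exact_mod_cast hM
  have hρ0 : 0 < ρ := lt_of_lt_of_le (by positivity) hρ2
  refine ⟨M, ρ, (2 * M + 1) * M ^ 2 + α, hM, hρ0, hρ1, by positivity, fun u hu X hX => ?_⟩
  set h := u / M with hh
  have n1 : M * h ≤ u := Nat.mul_div_le u M
  have n2 : u < M * (h + 1) := Nat.lt_mul_div_succ u (by omega)
  have n3 : 1 ≤ h := Nat.div_pos hu (by omega)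
  have r1 : (M : ℝ) * h ≤ u := by exact_mod_cast n1
  have r2 : (u : ℝ) ≤ 2 * M * h := by exact_mod_cast (by nlinarith : u ≤ 2 * M * h)
  have r3 : (1 : ℝ) ≤ h := by exact_mod_cast n3
  have u0 : (0 : ℝ) < u := by exact_mod_cast (by omega : 0 < u)
  set t := (M : ℝ)⁻¹ with htdef
  have ht0 : 0 < t := by positivity
  have htM : t * M = 1 := by rw [htdef]; field_simp
  have ht2 : t ≤ 1 / 2 := by nlinarith
  set A := sums X with hA
  have hA0 : (0 : ℝ) < A.card := by exact_mod_cast card_sums_pos X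
  have hAY : ∀ Y, (A.card : ℝ) ≤ (sums (X ∪ Y)).card := fun Y => by
    exact_mod_cast card_le_card (sums_mono subset_union_left)
  unfold WW
  rw [Eb_add, ← hA, ← htdef]
  have part2 : Eb α (Ico u (u + h)) (fun Y => (∑ j ∈ X ∪ Y, (j : ℝ)) / (u + h : ℕ)) ≤
      ρ * ((∑ j ∈ X, (j : ℝ)) / u) + α := by
    have s0 : 0 ≤ ∑ j ∈ X, (j : ℝ) := sum_nonneg fun _ _ => by positivity
    have a1 : Eb α (Ico u (u + h)) (fun Y => (∑ j ∈ X ∪ Y, (j : ℝ)) / (u + h : ℕ)) ≤
        Eb α (Ico u (u + h))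
          (fun Y => (∑ j ∈ X, (j : ℝ)) / (u + h) + ((u : ℝ) + h)⁻¹ * ∑ j ∈ Y, (j : ℝ)) := by
      apply Eb_mono hα0
      intro Y _
      have b1 := sum_union_inter (s₁ := X) (s₂ := Y) (f := fun j : ℕ => (j : ℝ))
      have b2 : 0 ≤ ∑ j ∈ X ∩ Y, (j : ℝ) := sum_nonneg fun _ _ => by positivity
      rw [inv_mul_eq_div, ← add_div]
      push_cast
      gcongr
      linarith
    rw [Eb_affine] at a1
    have a2 := Eb_sum_le hα0 (Ico u (u + h))
    rw [Nat.card_Ico, Nat.add_sub_cancel_left] at a2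
    have a3 : ((u : ℝ) + h)⁻¹ * Eb α (Ico u (u + h)) (fun Y => ∑ j ∈ Y, (j : ℝ)) ≤ α := by
      rw [inv_mul_le_iff₀ (by positivity)]
      nlinarith
    have a4 : (∑ j ∈ X, (j : ℝ)) / (u + h) ≤ ρ * ((∑ j ∈ X, (j : ℝ)) / u) := by
      have b1 : (u : ℝ) / (u + h) ≤ ρ := by
        refine le_trans ?_ hρ2
        rw [div_le_div_iff₀ (by positivity) (by positivity)]
        nlinarith
      calc _ = (u : ℝ) / (u + h) * ((∑ j ∈ X, (j : ℝ)) / u) := by field_simp
        _ ≤ _ := by gcongr
    linarith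
  have part1 : Eb α (Ico u (u + h)) (fun Y => (((u + h : ℕ) : ℝ) / (sums (X ∪ Y)).card) ^ t) ≤
      ρ * ((u : ℝ) / A.card) ^ t + (2 * M + 1) * M ^ 2 := by
    have v0 : 0 ≤ ((u : ℝ) / A.card) ^ t := by positivity
    by_cases hc : A.card * M ^ 2 ≤ h
    · set x := (h : ℝ) / u with hx
      have hx0 : 0 < x := by positivity
      have hx1 : t / 2 ≤ x := by rw [hx, le_div_iff₀ u0]; nlinarith
      have hx2 : x ≤ t := by rw [hx, div_le_iff₀ u0]; nlinarith
      set κ := (2 - t)⁻¹ ^ t with hκ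
      have hκ0 : 0 ≤ κ := Real.rpow_nonneg (inv_nonneg.2 (by linarith)) _
      have hκ1 : κ ≤ 1 := Real.rpow_le_one (inv_nonneg.2 (by linarith))
        (inv_le_one_of_one_le₀ (by linarith)) ht0.le
      set H := (Ico u (u + h)).filter (fun j => M * coll A j ≤ A.card) with hH
      set V := ((u : ℝ) / A.card) ^ t * (1 + x) ^ t with hV
      have hV0 : 0 ≤ V := by positivity
      have e1 : ((u + h : ℕ) : ℝ) / A.card = (u : ℝ) / A.card * (1 + x) := by
        rw [hx]; push_cast; field_simp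
      have a1 : Eb α (Ico u (u + h)) (fun Y => (((u + h : ℕ) : ℝ) / (sums (X ∪ Y)).card) ^ t) ≤
          Eb α (Ico u (u + h)) (fun Y => V * κ + V * (1 - κ) * ind (Disjoint Y H)) := by
        apply Eb_mono hα0
        intro Y _
        by_cases hd : Disjoint Y H
        · rw [ind_pos hd, show V * κ + V * (1 - κ) * 1 = V by ring, hV,
            ← Real.mul_rpow (by positivity) (by positivity), ← e1]
          have := hAY Y
          gcongr
        · rw [ind_neg hd, mul_zero, add_zero, hV, hκ,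
            ← Real.mul_rpow (by positivity) (by positivity), ← e1,
            ← Real.mul_rpow (by positivity) (inv_nonneg.2 (by linarith))]
          apply Real.rpow_le_rpow (by positivity) _ ht0.le
          obtain ⟨j, hj1, hj2⟩ := not_disjoint_iff.1 hd
          obtain ⟨b1, b2⟩ := mem_filter.1 hj2
          have b3 : j ∉ X := fun h' => by
            have := hX j h'
            have := (mem_Ico.1 b1).1
            omega
          have b4 := card_sums_insert b3
          have b5 : (sums (insert j X)).card ≤ (sums (X ∪ Y)).card := card_le_card (sums_mono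
            (insert_subset (mem_union_right _ hj1) subset_union_left))
          have b6 : 2 * (A.card : ℝ) ≤ (sums (X ∪ Y)).card + coll A j := by
            exact_mod_cast b4.trans (Nat.add_le_add_right b5 _)
          have b7 : (M : ℝ) * coll A j ≤ A.card := by exact_mod_cast b2
          have b8 : (coll A j : ℝ) ≤ t * A.card := by
            have := mul_le_mul_of_nonneg_left b7 ht0.le
            rwa [← mul_assoc, htM, one_mul] at this
          rw [← div_eq_mul_inv, div_div]
          apply div_le_div_of_nonneg_left (by positivity) (mul_pos hA0 (by linarith))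
          linarith
      rw [Eb_affine, Eb_miss, inter_eq_right.2 (filter_subset _ _)] at a1
      have a2 : (h : ℝ) * (1 - t) ≤ H.card := by
        have b1 := card_filter_add_card_filter_not (s := Ico u (u + h))
          (fun j => M * coll A j ≤ A.card)
        rw [Nat.card_Ico, Nat.add_sub_cancel_left, ← hH] at b1
        have b2 := card_bad_le A (Ico u (u + h)) (card_sums_pos X) M
        have b3 : (h : ℝ) ≤ H.card + M * A.card := by
          exact_mod_cast (by omega : h ≤ H.card + M * A.card)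
        have b4 : (A.card : ℝ) * M ^ 2 ≤ h := by exact_mod_cast hc
        have b5 := mul_le_mul_of_nonneg_left b4 ht0.le
        have b6 : t * (A.card * M ^ 2) = M * A.card := by
          rw [show t * (A.card * M ^ 2) = (t * M) * (M * A.card) by ring, htM, one_mul]
        linarith
      have a3 : α * x * (1 - t) / (1 + t) ≤ ∑ j ∈ H, α / j := by
        have b1 : ∀ j ∈ H, α / ((u : ℝ) + h) ≤ α / j := by
          intro j hj
          obtain ⟨c1, c2⟩ := mem_Ico.1 (mem_filter.1 hj).1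
          have c3 : (0 : ℝ) < j := by exact_mod_cast (by omega : 0 < j)
          have c4 : (j : ℝ) ≤ u + h := by exact_mod_cast c2.le
          gcongr
        have b2 := card_nsmul_le_sum _ _ _ b1
        rw [nsmul_eq_mul] at b2
        refine le_trans ?_ b2
        have b3 : 0 ≤ α * x * (1 - t) := mul_nonneg (by positivity) (by linarith)
        calc α * x * (1 - t) / (1 + t) ≤ α * x * (1 - t) / (1 + x) := by gcongr
          _ = (h : ℝ) * (1 - t) * (α / ((u : ℝ) + h)) := by rw [hx]; field_simp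
          _ ≤ _ := by gcongr
      have a4 := Real.exp_le_exp.2 (neg_le_neg a3)
      have a5 := mul_le_mul_of_nonneg_left a4 (mul_nonneg hV0 (sub_nonneg.2 hκ1))
      have a6 := mul_le_mul_of_nonneg_left (hρ x hx1 hx2) v0
      have a7 : (0 : ℝ) ≤ (2 * M + 1) * M ^ 2 := by positivity
      rw [hV] at a1 a5
      nlinarith
    · have a1 : Eb α (Ico u (u + h)) (fun Y => (((u + h : ℕ) : ℝ) / (sums (X ∪ Y)).card) ^ t) ≤
          Eb α (Ico u (u + h)) (fun _ => (2 * M + 1) * M ^ 2) := by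
        apply Eb_mono hα0
        intro Y _
        have b1 : (h : ℝ) ≤ A.card * M ^ 2 := by exact_mod_cast (not_le.1 hc).le
        have b2 := hAY Y
        have b3 : ((u + h : ℕ) : ℝ) / (sums (X ∪ Y)).card ≤ (2 * M + 1) * M ^ 2 := by
          rw [div_le_iff₀ (by linarith)]
          push_cast
          have c1 : (A.card : ℝ) * M ^ 2 ≤ (sums (X ∪ Y)).card * M ^ 2 := by gcongr
          have c2 := mul_le_mul_of_nonneg_left (b1.trans c1) (show (0 : ℝ) ≤ 2 * M + 1 by positivity)
          nlinarith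
        have b4 : (1 : ℝ) ≤ (2 * M + 1) * M ^ 2 := by nlinarith
        calc _ ≤ ((2 * (M : ℝ) + 1) * M ^ 2) ^ t := by gcongr
          _ ≤ ((2 * (M : ℝ) + 1) * M ^ 2) ^ (1 : ℝ) :=
            Real.rpow_le_rpow_of_exponent_le b4 (by linarith)
          _ = _ := Real.rpow_one _
      rw [Eb_const] at a1
      have := mul_nonneg hρ0.le v0
      linarith
  linarith

lemma hit (hα : 0 < α) {M u v W : ℕ} (hM : 1 ≤ M) (hu : 1 ≤ u) (hW : 1 ≤ W) (hv : (W + 1) * u < v)
    {X : Finset ℕ} (hX : ∀ j ∈ X, j < u) (h : WW M u X ≤ W) :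
    1 - Real.exp (-(α / (W ^ M * (W + 1)))) ≤
      Eb α (Ico u v) (fun Y => ind ((W + 1) * u ∈ sums (X ∪ Y))) := by
  have u0 : (0 : ℝ) < u := by exact_mod_cast hu
  have W0 : (0 : ℝ) < W := by exact_mod_cast hW
  set A := sums X with hA
  have hA0 : (0 : ℝ) < A.card := by exact_mod_cast card_sums_pos X
  unfold WW at h
  rw [← hA] at h
  have s0 : 0 ≤ ∑ j ∈ X, (j : ℝ) := sum_nonneg fun _ _ => by positivity
  have v0 : 0 ≤ ((u : ℝ) / A.card) ^ (M : ℝ)⁻¹ := by positivity
  have s1 : 0 ≤ (∑ j ∈ X, (j : ℝ)) / u := by positivity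
  have h1 : (u : ℝ) / A.card ≤ W ^ M := by
    rw [← Real.rpow_inv_natCast_pow (x := (u : ℝ) / A.card) (n := M) (by positivity) (by omega)]
    exact pow_le_pow_left₀ v0 (by linarith) M
  have h2 : ∑ j ∈ X, j ≤ W * u := by
    have : (∑ j ∈ X, (j : ℝ)) / u ≤ W := by linarith
    rw [div_le_iff₀ u0, ← Nat.cast_sum] at this
    exact_mod_cast this
  have hk : (W + 1) * u = W * u + u := by ring
  set k := (W + 1) * u with hkdef
  have h3 : ∀ a ∈ A, a + u ≤ k := fun a ha => by have := le_of_mem_sums ha; omega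
  set H := A.image (fun a => k - a) with hH
  have hHc : H.card = A.card := card_image_of_injOn fun a ha b hb hab => by
    have := h3 a ha
    have := h3 b hb
    omega
  have hHs : ∀ j ∈ H, u ≤ j ∧ j ≤ k := by
    intro j hj
    obtain ⟨a, ha, rfl⟩ := mem_image.1 hj
    have := h3 a ha
    omega
  have a1 : Eb α (Ico u v) (fun Y => 1 + (-1) * ind (Disjoint Y H)) ≤
      Eb α (Ico u v) (fun Y => ind (k ∈ sums (X ∪ Y))) := by
    apply Eb_mono hα
    intro Y _
    by_cases hd : Disjoint Y H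
    · rw [ind_pos hd]
      have := ind_nonneg (k ∈ sums (X ∪ Y))
      linarith
    · obtain ⟨j, hj1, hj2⟩ := not_disjoint_iff.1 hd
      have b1 := (hHs j hj2).1
      obtain ⟨a, ha, hj⟩ := mem_image.1 hj2
      have b2 := h3 a ha
      have b3 := sums_mono (insert_subset (mem_union_right X hj1) subset_union_left)
        (add_mem_sums (fun h' => by have := hX j h'; omega) ha)
      rw [show a + j = k by omega] at b3
      rw [ind_neg hd, ind_pos b3]
      norm_num
  rw [Eb_affine, Eb_miss, inter_eq_right.2 (fun j hj => mem_Ico.2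
    ⟨(hHs j hj).1, lt_of_le_of_lt (hHs j hj).2 hv⟩)] at a1
  have a2 : α / (W ^ M * (W + 1)) ≤ ∑ j ∈ H, α / j := by
    have b1 : ∀ j ∈ H, α / (((W : ℝ) + 1) * u) ≤ α / j := by
      intro j hj
      obtain ⟨c1, c2⟩ := hHs j hj
      have c3 : (0 : ℝ) < j := by exact_mod_cast (by omega : 0 < j)
      have c4 : (j : ℝ) ≤ ((W : ℝ) + 1) * u := by exact_mod_cast c2
      gcongr
    have b2 := card_nsmul_le_sum _ _ _ b1
    rw [nsmul_eq_mul, hHc] at b2
    refine le_trans ?_ b2
    calc α / (W ^ M * (W + 1)) ≤ α / ((u : ℝ) / A.card * (W + 1)) := by gcongr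
      _ = _ := by field_simp
  have := Real.exp_le_exp.2 (neg_le_neg a2)
  linarith

end Pool.Agent.MP_afae70_pr.LL
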