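import Pool.Agent.Results.MP_afae70_pr.LogSuffices

/-!
# Constant-probability events for the Ewens measure
-/

open Finset Filter

namespace Pool.Agent.MP_afae70_pr.LL

variable {α : ℝ}

open Classical in
/-- Indicator of a proposition. -/
noncomputable def ind (P : Prop) : ℝ := if P then 1 else 0

lemma ind_eq (P : Prop) [Decidable P] : ind P = if P then 1 else 0 := by
  unfold ind; split_ifs <;> rfl

lemma ind_pos {P : Prop} (h : P) : ind P = 1 := by unfold ind; rw [if_pos h]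

lemma ind_neg {P : Prop} (h : ¬ P) : ind P = 0 := by unfold ind; rw [if_neg h]

lemma ind_nonneg (P : Prop) : 0 ≤ ind P := by unfold ind; split_ifs <;> norm_num

lemma ind_le_one (P : Prop) : ind P ≤ 1 := by unfold ind; split_ifs <;> norm_num

lemma ind_mono {P Q : Prop} (h : P → Q) : ind P ≤ ind Q := by
  by_cases hp : P
  · rw [ind_pos hp, ind_pos (h hp)]
  · rw [ind_neg hp]; exact ind_nonneg Q

lemma estA4 (hα : 0 < α) : ∃ δ : ℝ, 0 < δ ∧ ∀ n K L : ℕ, 1 ≤ n → 1 ≤ K → 1 ≤ L → L ≤ 4 * K →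
    K + L ≤ n + 1 → δ * hh α n ≤ EE α n (fun m => if smallSum L m < K then 1 else 0) := by
  set A := ⌈α⌉₊ with hAdef
  have hA : α ≤ A := Nat.le_ceil α
  have hA1 : 1 ≤ A := Nat.ceil_pos.2 hα
  refine ⟨1 / (4 * (A : ℝ) + 5) ^ A, by positivity, fun n K L hn hK hL hLK hn' => ?_⟩
  obtain ⟨k, rfl⟩ : ∃ k, K = k + 1 := ⟨K - 1, by omega⟩
  set u : ℕ → ℝ := fun s => EE α s (fun m => if smallSum L m < k + 1 then 1 else 0) with hu
  have hu0 : ∀ s, 0 ≤ u s := fun s => EE_nonneg hα.le s fun m => by split_ifs <;> norm_num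
  have hrec : ∀ r, L ≤ r → α * ∑ s ∈ range (r - L + 1), u s ≤ r * u r := by
    intro r hr
    have h1 := EE_filter_sum α (n := r) (S := Icc L r) (Icc_subset_Icc_left hL)
      (fun m => if smallSum L m < k + 1 then 1 else 0)
    have h2 : ∑ j ∈ Icc L r, EE α (r - j)
        (fun m => if smallSum L (j ::ₘ m) < k + 1 then (1 : ℝ) else 0) = ∑ j ∈ Icc L r, u (r - j) := by
      apply sum_congr rfl
      intro j hj
      apply EE_congr
      intro m _
      have : smallSum L (j ::ₘ m) = smallSum L m := by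
        unfold smallSum
        rw [Multiset.filter_cons_of_neg]
        have := (mem_Icc.1 hj).1
        omega
      rw [this]
    rw [h2, sum_Icc_reflect u hr] at h1
    rw [← h1, hu, ← EE_const_mul]
    apply EE_mono hα.le
    intro m hm
    have : (m.filter (fun a => a ∈ Icc L r)).sum ≤ r := by
      rw [← (mem_PP.1 hm).1]
      exact filter_sum_le _ _
    have h3 : (((m.filter (fun a => a ∈ Icc L r)).sum : ℕ) : ℝ) ≤ r := by exact_mod_cast this
    gcongr
  have hbase : 1 / (4 * (A : ℝ) + 5) ^ A * HH α (k + L + A * L) ≤ ∑ s ∈ range (k + 1), u s := by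
    have h1 : ∑ s ∈ range (k + 1), u s = HH α k := by
      apply sum_congr rfl
      intro s hs
      apply EE_congr
      intro m hm
      rw [if_pos]
      have : smallSum L m ≤ m.sum := filter_sum_le _ _
      rw [(mem_PP.1 hm).1] at this
      have := mem_range.1 hs
      omega
    have h2 := HH_ratio hα hA (x := k) (y := k + L + A * L) (by omega)
    have h3 : (((k + L + A * L : ℕ) : ℝ) + 1) ≤ (4 * (A : ℝ) + 5) * ((k : ℝ) + 1) := by
      have : (L : ℝ) ≤ 4 * (k + 1) := by exact_mod_cast hLK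
      have hA0 : (0 : ℝ) ≤ A := by positivity
      push_cast
      nlinarith
    have h4 : (((k + L + A * L : ℕ) : ℝ) + 1) ^ A ≤ (4 * (A : ℝ) + 5) ^ A * ((k : ℝ) + 1) ^ A := by
      rw [← mul_pow]; gcongr
    have hk : (0 : ℝ) < ((k : ℝ) + 1) ^ A := by positivity
    have hp := HH_pos hα k
    rw [h1, one_div, inv_mul_le_iff₀ (by positivity)]
    apply le_of_mul_le_mul_right _ hk
    calc _ ≤ _ := h2
      _ ≤ HH α k * ((4 * (A : ℝ) + 5) ^ A * ((k : ℝ) + 1) ^ A) := by gcongr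
      _ = _ := by ring
  have hmain := delay hα hA hL u hu0 (by positivity) hbase hrec (n - L) (by omega)
  have h5 := hrec n (by omega)
  obtain ⟨n, rfl⟩ : ∃ n', n = n' + 1 := ⟨n - 1, by omega⟩
  have h6 := hh_succ_HH α n
  have h7 : HH α n ≤ HH α (n + 1 - L + A * L) := HH_mono hα (by
    have : L ≤ A * L := Nat.le_mul_of_pos_left _ hA1
    omega)
  have hn1 : (0 : ℝ) < (n : ℝ) + 1 := by positivity
  apply le_of_mul_le_mul_left _ hn1
  push_cast at h5
  calc ((n : ℝ) + 1) * (1 / (4 * (A : ℝ) + 5) ^ A * hh α (n + 1))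
      = α * (1 / (4 * (A : ℝ) + 5) ^ A * HH α n) := by
        rw [mul_left_comm, h6]; ring
    _ ≤ α * (1 / (4 * (A : ℝ) + 5) ^ A * HH α (n + 1 - L + A * L)) := by gcongr
    _ ≤ α * ∑ s ∈ range (n + 1 - L + 1), u s := by gcongr
    _ ≤ _ := h5

lemma hh_mono (hα : 1 ≤ α) : Monotone (hh α) := monotone_nat_of_le_succ fun n => by
  have h := hh_succ α n
  have hp := hh_pos (show 0 < α by linarith) n
  have h1 : (0 : ℝ) < (n : ℝ) + 1 := by positivity
  apply le_of_mul_le_mul_left _ h1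
  nlinarith

lemma hh_succ_le (hα : 1 ≤ α) (n : ℕ) : hh α (n + 1) ≤ α * hh α n := by
  have h := hh_succ α n
  have hp := hh_pos (show 0 < α by linarith) n
  have h1 : (0 : ℝ) < (n : ℝ) + 1 := by positivity
  have h2 : (0 : ℝ) ≤ n := by positivity
  apply le_of_mul_le_mul_left _ h1
  have : 0 ≤ (α - 1) * n * hh α n := by
    have : 0 ≤ α - 1 := by linarith
    positivity
  nlinarith

lemma hh_ratio (hα : 0 < α) {A : ℕ} (hA : α ≤ A) {c x y : ℕ} (hx : 1 ≤ x) (hxy : x ≤ y)
    (hc : y ≤ c * x) : hh α y ≤ (c : ℝ) ^ A * hh α x := by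
  obtain ⟨m, rfl⟩ : ∃ m, x = m + 1 := ⟨x - 1, by omega⟩
  obtain ⟨n, rfl⟩ : ∃ n', y = n' + 1 := ⟨y - 1, by omega⟩
  have a1 := hh_succ_HH α n
  have a2 := hh_succ_HH α m
  have a3 := HH_ratio hα hA (x := m) (y := n) (by omega)
  have a4 : (n : ℝ) + 1 ≤ c * ((m : ℝ) + 1) := by exact_mod_cast hc
  have a5 : (m : ℝ) + 1 ≤ (n : ℝ) + 1 := by exact_mod_cast hxy
  have a6 : ((n : ℝ) + 1) ^ A ≤ c ^ A * ((m : ℝ) + 1) ^ A := by rw [← mul_pow]; gcongr
  have hm0 : (0 : ℝ) < ((m : ℝ) + 1) ^ A := by positivity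
  have hp1 := HH_pos hα m
  have a7 : HH α n ≤ HH α m * c ^ A := by
    apply le_of_mul_le_mul_right _ hm0
    calc _ ≤ _ := a3
      _ ≤ HH α m * (c ^ A * ((m : ℝ) + 1) ^ A) := by gcongr
      _ = _ := by ring
  have hp2 := hh_pos hα (m + 1)
  have hn1 : (0 : ℝ) < (n : ℝ) + 1 := Nat.cast_add_one_pos n
  apply le_of_mul_le_mul_left _ hn1
  calc ((n : ℝ) + 1) * hh α (n + 1) = α * HH α n := a1
    _ ≤ α * (HH α m * c ^ A) := mul_le_mul_of_nonneg_left a7 hα.le
    _ = ((m : ℝ) + 1) * hh α (m + 1) * c ^ A := by rw [a2, mul_assoc]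
    _ ≤ ((n : ℝ) + 1) * hh α (m + 1) * c ^ A :=
      mul_le_mul_of_nonneg_right (mul_le_mul_of_nonneg_right a5 hp2.le) (by positivity)
    _ = _ := by ring

lemma le_of_mem_PP {n a : ℕ} {m : Multiset ℕ} (hm : m ∈ PP n) (ha : a ∈ m) : a ≤ n := by
  rw [← (mem_PP.1 hm).1]
  exact Multiset.single_le_sum (fun _ _ => Nat.zero_le _) a ha

lemma EE_count_le (hα : 1 ≤ α) (r : ℕ) {a : ℕ} (ha : 1 ≤ a) :
    EE α r (fun m => (m.count a : ℝ)) ≤ α / a * hh α r := by
  have hα0 : 0 < α := by linarith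
  have ha0 : (0 : ℝ) < a := by exact_mod_cast ha
  have hp := hh_pos hα0 r
  by_cases har : a ≤ r
  · have h := EE_count α ha har (fun _ => 1)
    simp only [mul_one] at h
    rw [EE_const_mul] at h
    have h2 : hh α (r - a) ≤ hh α r := hh_mono hα (by omega)
    rw [div_mul_eq_mul_div, le_div_iff₀ ha0, mul_comm, h]
    exact mul_le_mul_of_nonneg_left h2 hα0.le
  · have : EE α r (fun m => (m.count a : ℝ)) = EE α r (fun m => 0 * 0) := by
      apply EE_congr
      intro m hm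
      rw [Multiset.count_eq_zero.2 fun h => har (le_of_mem_PP hm h)]
      simp
    rw [this, EE_const_mul, zero_mul]
    positivity

lemma EE_sub (α : ℝ) (n : ℕ) (F G : Multiset ℕ → ℝ) :
    EE α n (fun m => F m - G m) = EE α n F - EE α n G := by
  have := EE_add α n (fun m => F m - G m) G
  simp only [sub_add_cancel] at this
  linarith

/-- A fixed point and no invariant set with size in `[K, L)`. -/
lemma estF (hα : 1 ≤ α) : ∃ δ : ℝ, 0 < δ ∧ ∀ n K L : ℕ, 2 ≤ n → 2 ≤ K → 1 ≤ L → L ≤ 2 * K →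
    K + L ≤ n + 1 →
      δ * hh α n ≤ EE α n (fun m => if 1 ∈ m ∧ smallSum L m < K then 1 else 0) := by
  have hα0 : 0 < α := by linarith
  obtain ⟨δ, hδ, hA⟩ := estA4 hα0
  set C := α + α ^ 2 with hC
  have hC0 : 0 < C := by positivity
  refine ⟨δ ^ 2 / C, by positivity, fun n K L hn hK hL hLK hn' => ?_⟩
  obtain ⟨n, rfl⟩ : ∃ n', n = n' + 1 := ⟨n - 1, by omega⟩
  set T := C / δ with hT
  have hT0 : 0 < T := by positivity
  have hp := hh_pos hα0 (n + 1)
  have hp' := hh_pos hα0 n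
  have h1 : δ * hh α (n + 1) ≤
      EE α (n + 1) (fun m => (m.count 1 : ℝ) * if smallSum L m < K then 1 else 0) := by
    have e := EE_count α (n := n + 1) (j := 1) le_rfl (by omega)
      (fun m => if smallSum L m < K then 1 else 0)
    simp only [Nat.cast_one, one_mul, Nat.add_sub_cancel] at e
    rw [e]
    have a1 := hA n (K - 1) L (by omega) (by omega) hL (by omega) (by omega)
    have a2 : EE α n (fun m => if smallSum L m < K - 1 then 1 else 0) ≤
        EE α n (fun m => if smallSum L (1 ::ₘ m) < K then 1 else 0) := by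
      apply EE_mono hα0.le
      intro m _
      have : smallSum L (1 ::ₘ m) ≤ smallSum L m + 1 := by
        unfold smallSum
        rw [Multiset.filter_cons]
        split_ifs <;> simp [add_comm]
      split_ifs with b1 b2
      · exact le_rfl
      · omega
      · norm_num
      · exact le_rfl
    have a3 := hh_succ_le hα n
    nlinarith
  have h2 : EE α (n + 1) (fun m => (m.count 1 : ℝ) ^ 2) ≤ C * hh α (n + 1) := by
    have e := EE_count α (n := n + 1) (j := 1) le_rfl (by omega) (fun m => (m.count 1 : ℝ))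
    simp only [Nat.cast_one, one_mul, Nat.add_sub_cancel, Multiset.count_cons_self, Nat.cast_add,
      ← sq] at e
    rw [e, EE_add]
    have a1 := EE_count_le hα n (a := 1) le_rfl
    have a2 : hh α n ≤ hh α (n + 1) := hh_mono hα (by omega)
    simp only [Nat.cast_one, div_one] at a1
    change α * (_ + hh α n) ≤ _
    rw [hC]
    nlinarith [mul_le_mul_of_nonneg_left a2 hα0.le]
  have h3 : EE α (n + 1) (fun m => (2 * T) * ((m.count 1 : ℝ) * if smallSum L m < K then 1 else 0)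
      - (m.count 1 : ℝ) ^ 2) ≤
      EE α (n + 1) (fun m => T ^ 2 * if 1 ∈ m ∧ smallSum L m < K then 1 else 0) := by
    apply EE_mono hα0.le
    intro m _
    by_cases b1 : smallSum L m < K
    · by_cases b2 : 1 ∈ m
      · rw [if_pos b1, if_pos ⟨b2, b1⟩]
        nlinarith [sq_nonneg (T - m.count 1)]
      · rw [Multiset.count_eq_zero.2 b2,
          if_neg (fun h : 1 ∈ m ∧ smallSum L m < K => b2 h.1)]
        simp
    · rw [if_neg b1, if_neg (fun h : 1 ∈ m ∧ smallSum L m < K => b1 h.2)]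
      nlinarith [sq_nonneg (m.count 1 : ℝ)]
  rw [EE_sub, EE_const_mul, EE_const_mul] at h3
  have h4 : T * δ = C := by rw [hT]; field_simp
  have h5 : T ^ 2 * (δ ^ 2 / C) = C := by rw [hT]; field_simp
  apply le_of_mul_le_mul_left _ (show 0 < T ^ 2 by positivity)
  have h6 := mul_le_mul_of_nonneg_left h1 (show 0 ≤ 2 * T by positivity)
  rw [← mul_assoc, h5]
  nlinarith

lemma estP_aux (hα : 1 ≤ α) {A : ℕ} (hA : α ≤ A) (n : ℕ) (S : Finset ℕ)
    (hS : ∀ p ∈ S, 1 ≤ p ∧ 32 * p ≤ 31 * n)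
    (hS2 : ∀ p ∈ S, α * (∑ a ∈ S, (1 / a : ℝ) + n / p ^ 2) ≤ 1 / 2) :
    α / (2 * 32 ^ A) * (∑ a ∈ S, (1 / a : ℝ)) * hh α n ≤
      EE α n (fun m => ind (∃ p ∈ S, p ∈ m ∧ ∀ a ∈ m.erase p, ¬ p ∣ a)) := by
  classical
  have hα0 : 0 < α := by linarith
  let G : ℕ → Multiset ℕ → ℝ := fun p m => if ∀ a ∈ m, a ∉ S ∧ ¬ p ∣ a then 1 else 0
  have h1 : EE α n (fun m => ∑ p ∈ S, (m.count p : ℝ) * G p (m.erase p)) ≤
      EE α n (fun m => ind (∃ p ∈ S, p ∈ m ∧ ∀ a ∈ m.erase p, ¬ p ∣ a)) := by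
    apply EE_mono hα0.le
    intro m _
    by_cases h : ∃ p ∈ S, p ∈ m ∧ ∀ a ∈ m.erase p, a ∉ S ∧ ¬ p ∣ a
    · obtain ⟨p, hp, hpm, hg⟩ := h
      rw [ind_pos ⟨p, hp, hpm, fun a ha => (hg a ha).2⟩, sum_eq_single p]
      · have : m.count p = 1 := by
          have c1 := Multiset.count_erase_self p m
          have c2 : (m.erase p).count p = 0 :=
            Multiset.count_eq_zero.2 fun h => (hg p h).1 hp
          have c3 := Multiset.count_pos.2 hpm
          omega
        simp only [this, G, if_pos hg]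
        norm_num
      · intro q hq hqp
        rw [Multiset.count_eq_zero.2, Nat.cast_zero, zero_mul]
        intro hqm
        exact (hg q ((Multiset.mem_erase_of_ne hqp).2 hqm)).1 hq
      · intro h; exact absurd hp h
    · rw [sum_eq_zero]
      · exact ind_nonneg _
      · intro p hp
        by_cases hpm : p ∈ m
        · simp only [G]
          rw [if_neg (fun hg => h ⟨p, hp, hpm, hg⟩), mul_zero]
        · rw [Multiset.count_eq_zero.2 hpm, Nat.cast_zero, zero_mul]
  refine le_trans ?_ h1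
  rw [EE_sum, mul_sum, sum_mul]
  apply sum_le_sum
  intro p hp
  obtain ⟨hp1, hp2⟩ := hS p hp
  have hp0 : (0 : ℝ) < p := by exact_mod_cast hp1
  have e := EE_count α (n := n) (j := p) hp1 (by omega) (fun m => G p (m.erase p))
  simp only [Multiset.erase_cons_head, mul_assoc] at e
  rw [EE_const_mul] at e
  set r := n - p with hr
  set D := (Ioc 0 n).filter (fun a => p ∣ a) with hD
  have h2 : EE α r (fun m => 1 - ∑ a ∈ S, (m.count a : ℝ) - ∑ a ∈ D, (m.count a : ℝ))
      ≤ EE α r (G p) := by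
    apply EE_mono hα0.le
    intro m hm
    have c1 : (0 : ℝ) ≤ ∑ a ∈ S, (m.count a : ℝ) := sum_nonneg fun _ _ => by positivity
    have c2 : (0 : ℝ) ≤ ∑ a ∈ D, (m.count a : ℝ) := sum_nonneg fun _ _ => by positivity
    simp only [G]
    split_ifs with h
    · linarith
    · push Not at h
      obtain ⟨a, ha, h⟩ := h
      have c3 : (1 : ℝ) ≤ m.count a := by exact_mod_cast Multiset.count_pos.2 ha
      by_cases haS : a ∈ S
      · have := single_le_sum (f := fun a => (m.count a : ℝ)) (fun _ _ => by positivity) haS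
        linarith
      · have haD : a ∈ D := by
          have d1 := le_of_mem_PP hm ha
          have d2 := (mem_PP.1 hm).2 a ha
          exact mem_filter.2 ⟨mem_Ioc.2 ⟨d2, by omega⟩, h haS⟩
        have := single_le_sum (f := fun a => (m.count a : ℝ)) (fun _ _ => by positivity) haD
        linarith
  rw [EE_sub, EE_sub, EE_sum, EE_sum] at h2
  have hpr := hh_pos hα0 r
  have h3 : ∑ a ∈ S, EE α r (fun m => (m.count a : ℝ)) ≤ α * (∑ a ∈ S, (1 / a : ℝ)) * hh α r := by
    rw [mul_sum, sum_mul]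
    apply sum_le_sum
    intro a ha
    rw [mul_one_div]
    exact EE_count_le hα r (hS a ha).1
  have h4 : ∑ a ∈ D, EE α r (fun m => (m.count a : ℝ)) ≤ α * (n / p ^ 2) * hh α r := by
    have d1 : ∀ a ∈ D, EE α r (fun m => (m.count a : ℝ)) ≤ α / p * hh α r := by
      intro a ha
      have d2 := mem_filter.1 ha
      have d3 := (mem_Ioc.1 d2.1).1
      have d4 : (p : ℝ) ≤ a := by exact_mod_cast Nat.le_of_dvd d3 d2.2
      refine (EE_count_le hα r d3).trans ?_
      gcongr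
    have d5 := sum_le_card_nsmul _ _ _ d1
    rw [nsmul_eq_mul, hD, Nat.Ioc_filter_dvd_card_eq_div] at d5
    refine d5.trans ?_
    have d6 : ((n / p : ℕ) : ℝ) ≤ n / p := Nat.cast_div_le
    calc ((n / p : ℕ) : ℝ) * (α / p * hh α r) ≤ n / p * (α / p * hh α r) := by gcongr
      _ = _ := by field_simp
  have h5 : hh α r / 2 ≤ EE α r (G p) := by
    have := mul_le_mul_of_nonneg_right (hS2 p hp) hpr.le
    change hh α r - _ - _ ≤ _ at h2
    nlinarith
  have h6 : hh α n ≤ (32 : ℕ) ^ A * hh α r := hh_ratio hα0 hA (by omega) (by omega) (by omega)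
  push_cast at h6
  apply le_of_mul_le_mul_left _ hp0
  rw [e]
  calc (p : ℝ) * (α / (2 * 32 ^ A) * (1 / p) * hh α n) = α * (hh α n / 32 ^ A / 2) := by
        field_simp
    _ ≤ α * (hh α r / 2) := by
        gcongr
        rwa [div_le_iff₀' (by positivity)]
    _ ≤ _ := mul_le_mul_of_nonneg_left h5 hα0.le

lemma exists_subset_sum {ι : Type} [DecidableEq ι] (f : ι → ℝ) {ε : ℝ} (hε : 0 < ε) (S : Finset ι)
    (h1 : ∀ a ∈ S, f a ≤ ε) (h2 : ε ≤ ∑ a ∈ S, f a) :
    ∃ T ⊆ S, ε ≤ ∑ a ∈ T, f a ∧ ∑ a ∈ T, f a ≤ 2 * ε := by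
  induction S using Finset.induction_on with
  | empty => simp at h2; linarith
  | insert a S ha ih =>
    by_cases h : ε ≤ ∑ a ∈ S, f a
    · obtain ⟨T, hT, h3⟩ := ih (fun b hb => h1 b (mem_insert_of_mem hb)) h
      exact ⟨T, hT.trans (subset_insert _ _), h3⟩
    · refine ⟨insert a S, Subset.rfl, h2, ?_⟩
      rw [sum_insert ha]
      have := h1 a (mem_insert_self _ _)
      linarith

lemma primes_sum : ∀ᶠ n : ℕ in atTop, ∃ S : Finset ℕ, (1 / 80 : ℝ) ≤ ∑ a ∈ S, (1 / a : ℝ) ∧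
    ∀ p ∈ S, p.Prime ∧ 32 * p ≤ 31 * n ∧ n * (Nat.log 2 n / 4) ≤ 8 * p ^ 2 := by
  obtain ⟨n0, hn0⟩ := eventually_atTop.1 eventually_goodPrimes
  filter_upwards [eventually_ge_atTop (2 ^ (2 * n0 + 4))] with n hn
  set I := Nat.log 2 n with hI
  have hI1 : 2 * n0 + 4 ≤ I := Nat.le_log_of_pow_le (by norm_num) hn
  have hn1 : 0 < n := lt_of_lt_of_le (by positivity) hn
  have a1 : 2 ^ I ≤ n := Nat.pow_log_le_self 2 (by omega)
  have a2 : n < 2 ^ (I + 1) := Nat.lt_pow_succ_log_self (by norm_num) n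
  set d := I / 4 with hd
  refine ⟨(Icc (I - d) I).biUnion (fun i => goodPrimes (2 ^ i)), ?_, ?_⟩
  · rw [sum_biUnion]
    · have b1 : ∀ i ∈ Icc (I - d) I, (1 / (20 * I) : ℝ) ≤ ∑ a ∈ goodPrimes (2 ^ i), (1 / a : ℝ) := by
        intro i hi
        obtain ⟨c1, c2⟩ := mem_Icc.1 hi
        have c3 : i < 2 ^ i := Nat.lt_two_pow_self
        have c4 := hn0 (2 ^ i) (by omega)
        have c5 : ∀ a ∈ goodPrimes (2 ^ i), (1 / 2 ^ i : ℝ) ≤ (1 / a : ℝ) := by
          intro a ha
          have := (mem_filter.1 ha).2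
          have e1 : (0 : ℝ) < a := by exact_mod_cast this.1.pos
          have e2 : (a : ℝ) ≤ 2 ^ i := by exact_mod_cast (by omega : a ≤ 2 ^ i)
          exact one_div_le_one_div_of_le e1 e2
        have c6 := card_nsmul_le_sum _ _ _ c5
        rw [nsmul_eq_mul] at c6
        refine le_trans ?_ c6
        push_cast at c4
        rw [Real.log_pow] at c4
        have c7 := Real.log_two_lt_d9
        have c8 : (i : ℝ) ≤ I := by exact_mod_cast c2
        have c9 : (0 : ℝ) < I := by exact_mod_cast (by omega : 0 < I)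
        have c10 : (0 : ℝ) ≤ (goodPrimes (2 ^ i)).card := by positivity
        have c11 : (i : ℝ) * Real.log 2 ≤ I := by
          have : (0 : ℝ) ≤ i := by positivity
          nlinarith
        have c12 := mul_le_mul_of_nonneg_left c11 c10
        rw [mul_one_div, div_le_div_iff₀ (by positivity) (by positivity)]
        nlinarith
      have b2 := card_nsmul_le_sum _ _ _ b1
      refine le_trans ?_ b2
      rw [nsmul_eq_mul, Nat.card_Icc]
      have b3 : (I : ℝ) ≤ 4 * ((I + 1 - (I - d) : ℕ) : ℝ) := by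
        exact_mod_cast (by omega : I ≤ 4 * (I + 1 - (I - d)))
      have c9 : (0 : ℝ) < I := by exact_mod_cast (by omega : 0 < I)
      rw [mul_one_div, le_div_iff₀ (by positivity)]
      linarith
    · have key : ∀ i j : ℕ, i < j → Disjoint (goodPrimes (2 ^ i)) (goodPrimes (2 ^ j)) := by
        intro i j hij
        rw [disjoint_left]
        intro p hp hq
        have e1 := (mem_filter.1 hp).2
        have e2 := (mem_filter.1 hq).2
        have e3 : 2 ^ (i + 1) ≤ 2 ^ j := Nat.pow_le_pow_right (by norm_num) hij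
        rw [pow_succ] at e3
        omega
      intro i _ j _ hij
      rcases lt_or_gt_of_ne hij with h | h
      · exact key i j h
      · exact (key j i h).symm
  · intro p hp
    obtain ⟨i, hi, hp⟩ := mem_biUnion.1 hp
    obtain ⟨c1, c2⟩ := mem_Icc.1 hi
    obtain ⟨e1, e2, e3⟩ := (mem_filter.1 hp).2
    have e4 : 2 ^ i ≤ 2 ^ I := Nat.pow_le_pow_right (by norm_num) c2
    refine ⟨e1, by omega, ?_⟩
    have e5 : d ≤ 2 ^ d := Nat.lt_two_pow_self.le
    have e6 : 2 ^ (I + 1) * 2 ^ d ≤ 2 * (2 ^ i * 2 ^ i) := by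
      rw [← pow_add, ← pow_add, ← pow_succ']
      exact Nat.pow_le_pow_right (by norm_num) (by omega)
    have e7 : 2 ^ i * 2 ^ i ≤ (2 * p) * (2 * p) := Nat.mul_le_mul e2.le e2.le
    have e8 : n * d ≤ 2 ^ (I + 1) * 2 ^ d := Nat.mul_le_mul a2.le e5
    nlinarith

/-- A cycle of prime length `p` and no other cycle of length divisible by `p`. -/
lemma estP (hα : 1 ≤ α) : ∃ δ : ℝ, 0 < δ ∧ ∀ᶠ n : ℕ in atTop, δ * hh α n ≤
    EE α n (fun m => ind (∃ p, p + 3 ≤ n ∧ p.Prime ∧ p ∈ m ∧ ∀ a ∈ m.erase p, ¬ p ∣ a)) := by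
  have hα0 : 0 < α := by linarith
  set A := ⌈α⌉₊ with hAdef
  have hA : α ≤ A := Nat.le_ceil α
  set ε := 1 / (80 * α) with hε
  have hε0 : 0 < ε := by positivity
  have hε1 : ε ≤ 1 / 80 := one_div_le_one_div_of_le (by norm_num) (by linarith)
  have hε2 : α * ε = 1 / 80 := by rw [hε]; field_simp
  refine ⟨α / (2 * 32 ^ A) * ε, by positivity, ?_⟩
  filter_upwards [primes_sum, eventually_ge_atTop (2 ^ (4 * (640 * A))), eventually_ge_atTop 96]
    with n ⟨S0, h1, h2⟩ hn hn'
  have hI : 4 * (640 * A) ≤ Nat.log 2 n := Nat.le_log_of_pow_le (by norm_num) hn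
  have h3 : ∀ p ∈ S0, (n / p ^ 2 : ℝ) ≤ ε := by
    intro p hp
    obtain ⟨c1, c2, c3⟩ := h2 p hp
    have c4 : n * (640 * A) ≤ 8 * p ^ 2 :=
      le_trans (Nat.mul_le_mul_left _ (by omega)) c3
    have c5 : (n : ℝ) * (640 * A) ≤ 8 * p ^ 2 := by exact_mod_cast c4
    have c6 : (0 : ℝ) < p := by exact_mod_cast c1.pos
    have c7 : (0 : ℝ) ≤ n := by positivity
    rw [hε, div_le_div_iff₀ (by positivity) (by positivity)]
    nlinarith
  obtain ⟨S, hS, h4, h5⟩ := exists_subset_sum (fun a : ℕ => (1 / a : ℝ)) hε0 S0 (fun p hp => by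
    obtain ⟨c1, c2, c3⟩ := h2 p hp
    refine le_trans ?_ (h3 p hp)
    have c6 : (0 : ℝ) < p := by exact_mod_cast c1.pos
    have c7 : (p : ℝ) ≤ n := by exact_mod_cast (by omega : p ≤ n)
    rw [div_le_div_iff₀ c6 (by positivity)]
    nlinarith) (hε1.trans h1)
  have h6 := estP_aux hα hA n S (fun p hp => ⟨(h2 p (hS hp)).1.pos, (h2 p (hS hp)).2.1⟩)
    (fun p hp => by
      have := h3 p (hS hp)
      nlinarith)
  have hp := hh_pos hα0 n
  calc _ ≤ α / (2 * 32 ^ A) * (∑ a ∈ S, (1 / a : ℝ)) * hh α n := by gcongr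
    _ ≤ _ := h6
    _ ≤ _ := by
      apply EE_mono hα0.le
      intro m _
      apply ind_mono
      rintro ⟨p, hp, b3, b4⟩
      obtain ⟨c1, c2, -⟩ := h2 p (hS hp)
      exact ⟨p, by omega, c1, b3, b4⟩

end Pool.Agent.MP_afae70_pr.LL
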