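import Pool.Agent.MP_afae70_pr.LL.Bern

/-!
# The set of short cycle lengths is dominated by the independent model
-/

open Finset

namespace Pool.Agent.MP_afae70_pr.LL

variable {α : ℝ}

lemma EE_zero (α : ℝ) (n : ℕ) {F : Multiset ℕ → ℝ} (h : ∀ m ∈ PP n, F m = 0) : EE α n F = 0 := by
  rw [EE_congr α n (G := fun _ => 0 * 0) (by simpa using h), EE_const_mul, zero_mul]

lemma peel (hα : 0 < α) {j : ℕ} (hj : 1 ≤ j) (F : Multiset ℕ → ℝ)
    (hF : ∀ m, F (j ::ₘ m) = F m) {S : ℝ} (hS0 : 0 ≤ S) (i : ℕ) : ∀ n : ℕ,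
    (∀ r ≤ n, EE α r (fun m => ind (m.count j = 0) * F m) ≤ S) →
    EE α n (fun m => ind (m.count j = i) * F m) ≤ (α / j) ^ i / i.factorial * S := by
  have hj0 : (0 : ℝ) < j := by exact_mod_cast hj
  induction i with
  | zero => intro n h; simpa using h n le_rfl
  | succ i ih =>
    intro n h
    by_cases hjn : j ≤ n
    · have e := EE_count α hj hjn (fun m => ind (m.count j = i + 1) * F m)
      simp only [Multiset.count_cons_self, Nat.add_right_cancel_iff, hF] at e
      have e2 : EE α n (fun m => (j * m.count j : ℝ) * (ind (m.count j = i + 1) * F m)) =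
          (j * (i + 1) : ℝ) * EE α n (fun m => ind (m.count j = i + 1) * F m) := by
        rw [← EE_const_mul]
        apply EE_congr
        intro m _
        by_cases hc : m.count j = i + 1
        · rw [hc]; push_cast; ring
        · rw [ind_neg hc]; ring
      have e3 := ih (n - j) fun r hr => h r (by omega)
      apply le_of_mul_le_mul_left _ (show (0 : ℝ) < j * (i + 1) by positivity)
      rw [← e2, e]
      calc _ ≤ α * ((α / j) ^ i / i.factorial * S) := mul_le_mul_of_nonneg_left e3 hα.le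
        _ = _ := by
          rw [Nat.factorial_succ, pow_succ]
          push_cast
          field_simp
    · rw [EE_zero]
      · positivity
      · intro m hm
        rw [ind_neg, zero_mul]
        rw [Multiset.count_eq_zero.2 fun h => hjn (le_of_mem_PP hm h)]
        omega

lemma count_le_of_mem_PP {n j : ℕ} {m : Multiset ℕ} (hm : m ∈ PP n) : m.count j ≤ n := by
  refine (Multiset.count_le_card _ _).trans ?_
  rw [← (mem_PP.1 hm).1]
  have := Multiset.card_nsmul_le_sum (s := m) (a := 1) (fun a ha => (mem_PP.1 hm).2 a ha)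
  simpa using this

lemma peel_all (hα : 0 < α) (n c : ℕ) {S : ℝ} (hS0 : 0 ≤ S)
    (hS : ∀ r ≤ n, EE α r (fun m => ind (∀ a ∈ m, c ≤ a)) ≤ S) (l : ℕ) :
    ∀ j : ℕ, 1 ≤ j → j + l = c → ∀ G : Finset ℕ → ℝ, (∀ X, 0 ≤ G X) → ∀ r ≤ n,
      EE α r (fun m => ind (∀ a ∈ m, j ≤ a) * G (m.toFinset ∩ Ico j c)) ≤
        S * Real.exp (∑ a ∈ Ico j c, α / a) * Eb α (Ico j c) G := by
  induction l with
  | zero =>
    intro j _ hjc G hG r hr
    obtain rfl : j = c := by omega
    simp only [Ico_self, inter_empty, sum_empty, Real.exp_zero, mul_one, Eb_empty]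
    simp only [mul_comm _ (G ∅)]
    rw [EE_const_mul]
    exact mul_le_mul_of_nonneg_left (hS r hr) (hG _)
  | succ l ih =>
    intro j hj hjc G hG r hr
    have hI : Ico j c = insert j (Ico (j + 1) c) := by
      ext a; simp only [mem_Ico, mem_insert]; omega
    have hjI : j ∉ Ico (j + 1) c := by simp
    set E := Real.exp (∑ a ∈ Ico (j + 1) c, α / a) with hE
    set F1 : Multiset ℕ → ℝ :=
      fun m => ind (∀ a ∈ m, j ≤ a) * G (insert j (m.toFinset ∩ Ico (j + 1) c)) with hF1
    have hF1c : ∀ m, F1 (j ::ₘ m) = F1 m := by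
      intro m
      simp only [hF1, Multiset.toFinset_cons, insert_inter_of_notMem hjI, Multiset.mem_cons,
        forall_eq_or_imp, le_refl, true_and]
    have hind : ∀ m : Multiset ℕ,
        ind (m.count j = 0) * ind (∀ a ∈ m, j ≤ a) ≤ ind (∀ a ∈ m, j + 1 ≤ a) := by
      intro m
      by_cases c1 : m.count j = 0
      · rw [ind_pos c1, one_mul]
        apply ind_mono
        intro h a ha
        have := h a ha
        have : a ≠ j := fun h' => Multiset.count_eq_zero.1 c1 (h' ▸ ha)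
        omega
      · rw [ind_neg c1, zero_mul]; exact ind_nonneg _
    set S1 := S * E * Eb α (Ico (j + 1) c) (fun X => G (insert j X)) with hS1
    have hS10 : 0 ≤ S1 := mul_nonneg (by positivity) (Eb_nonneg hα _ fun _ => hG _)
    have h1 : ∀ r' ≤ r, EE α r' (fun m => ind (m.count j = 0) * F1 m) ≤ S1 := by
      intro r' hr'
      refine le_trans (EE_mono hα.le r' fun m _ => ?_)
        (ih (j + 1) (by omega) (by omega) (fun X => G (insert j X)) (fun _ => hG _) r' (by omega))
      simp only [hF1]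
      rw [← mul_assoc]
      exact mul_le_mul_of_nonneg_right (hind m) (hG _)
    have h2 := ih (j + 1) (by omega) (by omega) G hG r hr
    have h3 : EE α r (fun m => ind (∀ a ∈ m, j ≤ a) * G (m.toFinset ∩ Ico j c)) ≤
        EE α r (fun m => ind (∀ a ∈ m, j + 1 ≤ a) * G (m.toFinset ∩ Ico (j + 1) c)
          + ∑ i ∈ range r, ind (m.count j = i + 1) * F1 m) := by
      apply EE_mono hα.le
      intro m hm
      have hF0 : 0 ≤ F1 m := mul_nonneg (ind_nonneg _) (hG _)
      by_cases c1 : m.count j = 0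
      · have a1 := hind m
        rw [ind_pos c1, one_mul] at a1
        have a2 : m.toFinset ∩ Ico j c = m.toFinset ∩ Ico (j + 1) c := by
          rw [hI, inter_insert_of_notMem]
          simpa using c1
        have a3 : 0 ≤ ∑ i ∈ range r, ind (m.count j = i + 1) * F1 m :=
          sum_nonneg fun _ _ => mul_nonneg (ind_nonneg _) hF0
        rw [a2]
        have := mul_le_mul_of_nonneg_right a1 (hG (m.toFinset ∩ Ico (j + 1) c))
        linarith
      · have a1 := count_le_of_mem_PP (j := j) hm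
        have a2 : m.toFinset ∩ Ico j c = insert j (m.toFinset ∩ Ico (j + 1) c) := by
          rw [hI, inter_insert_of_mem]
          simpa using c1
        have a3 := single_le_sum (f := fun i => ind (m.count j = i + 1) * F1 m)
          (fun _ _ => mul_nonneg (ind_nonneg _) hF0)
          (mem_range.2 (show m.count j - 1 < r by omega))
        rw [ind_pos (by omega), one_mul] at a3
        have a4 := mul_nonneg (ind_nonneg (∀ a ∈ m, j + 1 ≤ a)) (hG (m.toFinset ∩ Ico (j + 1) c))
        rw [a2]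
        change F1 m ≤ _
        linarith
    rw [EE_add, EE_sum] at h3
    have h4 : ∑ i ∈ range r, EE α r (fun m => ind (m.count j = i + 1) * F1 m) ≤
        (Real.exp (α / j) - 1) * S1 := by
      refine (sum_le_sum fun i _ => peel hα hj F1 hF1c hS10 (i + 1) r h1).trans ?_
      rw [← sum_mul]
      apply mul_le_mul_of_nonneg_right _ hS10
      have := Real.sum_le_exp_of_nonneg (show 0 ≤ α / j by positivity) (r + 1)
      rw [sum_range_succ'] at this
      simp only [pow_zero, Nat.factorial_zero, Nat.cast_one, div_one] at this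
      linarith
    rw [hI, Eb_insert α hjI, sum_insert hjI, Real.exp_add, ← hI, ← hE, one_sub_pr]
    have h5 : Real.exp (α / j) * Real.exp (-(α / j)) = 1 := by rw [← Real.exp_add]; simp
    have h6 : S * (Real.exp (α / j) * E) * (Real.exp (-(α / j)) * Eb α (Ico (j + 1) c) G +
        pr α j * Eb α (Ico (j + 1) c) (fun X => G (insert j X))) =
        S * E * Eb α (Ico (j + 1) c) G + (Real.exp (α / j) - 1) * S1 := by
      rw [hS1]
      unfold pr
      linear_combination (S * E * (Eb α (Ico (j + 1) c) G -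
        Eb α (Ico (j + 1) c) (fun X => G (insert j X)))) * h5
    rw [h6]
    linarith

/-- Total weight of the partitions of `r` with all parts at least `c`. -/
noncomputable def gg (α : ℝ) (c r : ℕ) : ℝ := EE α r (fun m => ind (∀ a ∈ m, c ≤ a))

lemma gg_nonneg (hα : 0 < α) (c r : ℕ) : 0 ≤ gg α c r := EE_nonneg hα.le r fun _ => ind_nonneg _

lemma gg_step (hα : 0 < α) {c : ℕ} (hc : 1 ≤ c) (s : ℕ) :
    gg α (c + 1) (s + c) + α / c * gg α (c + 1) s ≤ gg α c (s + c) := by
  have hc0 : (0 : ℝ) < c := by exact_mod_cast hc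
  have e := EE_count α (n := s + c) hc (by omega) (fun m => ind (∀ a ∈ m.erase c, c + 1 ≤ a))
  simp only [Multiset.erase_cons_head, mul_assoc, Nat.add_sub_cancel] at e
  rw [EE_const_mul] at e
  have e2 : α / c * gg α (c + 1) s =
      EE α (s + c) (fun m => (m.count c : ℝ) * ind (∀ a ∈ m.erase c, c + 1 ≤ a)) := by
    unfold gg
    rw [div_mul_eq_mul_div, ← e]
    field_simp
  rw [e2]
  unfold gg
  rw [← EE_add]
  apply EE_mono hα.le
  intro m _
  by_cases hm : c ∈ m
  · rw [ind_neg (fun h => by have := h c hm; omega), zero_add]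
    by_cases h : ∀ a ∈ m.erase c, c + 1 ≤ a
    · have : m.count c = 1 := by
        have c1 := Multiset.count_erase_self c m
        have c2 : (m.erase c).count c = 0 :=
          Multiset.count_eq_zero.2 fun h' => by have := h c h'; omega
        have c3 := Multiset.count_pos.2 hm
        omega
      rw [this, ind_pos h, ind_pos]
      · norm_num
      · intro a ha
        by_cases hac : a = c
        · omega
        · have := h a ((Multiset.mem_erase_of_ne hac).2 ha); omega
    · rw [ind_neg h, mul_zero]; exact ind_nonneg _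
  · rw [Multiset.count_eq_zero.2 hm, Nat.cast_zero, zero_mul, add_zero]
    exact ind_mono fun h a ha => by have := h a ha; omega

lemma gg_anti (hα : 0 < α) (c s : ℕ) : gg α (c + 1) s ≤ gg α c s :=
  EE_mono hα.le s fun m _ => ind_mono fun h a ha => by have := h a ha; omega

lemma gg_sum_step (hα : 0 < α) {c : ℕ} (hc : 1 ≤ c) (R : ℕ) :
    (1 + α / c) * ∑ s ∈ range R, gg α (c + 1) s ≤ ∑ s ∈ range (c + R), gg α c s := by
  have h1 : ∑ s ∈ range R, gg α (c + 1) s ≤ ∑ s ∈ range (c + R), gg α (c + 1) s :=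
    sum_le_sum_of_subset_of_nonneg (range_subset_range.2 (by omega))
      fun _ _ _ => gg_nonneg hα _ _
  rw [sum_range_add] at h1 ⊢
  have h2 : ∑ s ∈ range c, gg α (c + 1) s ≤ ∑ s ∈ range c, gg α c s :=
    sum_le_sum fun s _ => gg_anti hα c s
  have h3 := sum_le_sum (s := range R) fun s _ => gg_step hα hc s
  rw [sum_add_distrib, ← mul_sum] at h3
  simp only [add_comm _ c] at h3
  simp only [add_comm c 1] at h1 h2 h3 ⊢
  linarith

lemma gg_sum_le (hα : 0 < α) (b : ℕ) : ∀ R : ℕ,
    HH α b * ∑ s ∈ range R, gg α (b + 1) s ≤ ∑ s ∈ range (R + b * b), hh α s := by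
  induction b with
  | zero =>
    intro R
    simp only [HH, zero_add, range_one, sum_singleton, hh_zero, one_mul, mul_zero, add_zero]
    exact sum_le_sum fun s _ => EE_mono hα.le s fun _ _ => ind_le_one _
  | succ b ih =>
    intro R
    have h1 := gg_sum_step hα (c := b + 1) (by omega) R
    push_cast at h1
    rw [HH_succ, mul_assoc]
    refine (mul_le_mul_of_nonneg_left h1 (HH_pos hα b).le).trans ((ih _).trans ?_)
    exact sum_le_sum_of_subset_of_nonneg (range_subset_range.2 (by nlinarith))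
      fun _ _ _ => (hh_pos hα _).le

lemma gg_rec (hα : 0 < α) (c r : ℕ) (hr : 1 ≤ r) :
    r * gg α c r ≤ α * ∑ s ∈ range r, gg α c s := by
  have e := EE_filter_sum α (n := r) (S := Icc 1 r) Subset.rfl (fun m => ind (∀ a ∈ m, c ≤ a))
  have e1 : EE α r (fun m => ((m.filter (fun a => a ∈ Icc 1 r)).sum : ℝ) * ind (∀ a ∈ m, c ≤ a))
      = r * gg α c r := by
    unfold gg
    rw [← EE_const_mul]
    apply EE_congr
    intro m hm
    rw [Multiset.filter_eq_self.2, (mem_PP.1 hm).1]
    intro a ha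
    exact mem_Icc.2 ⟨(mem_PP.1 hm).2 a ha, le_of_mem_PP hm ha⟩
  rw [← e1, e]
  apply mul_le_mul_of_nonneg_left _ hα.le
  have e2 := sum_Icc_reflect (gg α c) hr
  rw [show r - 1 + 1 = r by omega] at e2
  rw [← e2]
  apply sum_le_sum
  intro j _
  exact EE_mono hα.le _ fun m _ => ind_mono fun h a ha => h a (Multiset.mem_cons_of_mem ha)

lemma hh_cube (hα : 4 / 3 ≤ α) (n : ℕ) : (n : ℝ) + 1 ≤ hh α n ^ 3 := by
  have hα0 : 0 < α := by linarith
  induction n with
  | zero => simp [hh_zero]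
  | succ n ih =>
    have h := hh_succ α n
    have hp := hh_pos hα0 n
    have h1 : (0 : ℝ) < (n : ℝ) + 1 := by positivity
    have h2 : (((n : ℝ) + 1) * hh α (n + 1)) ^ 3 = (α + n) ^ 3 * hh α n ^ 3 := by rw [h, mul_pow]
    have h3 : ((n : ℝ) + 1 + 1 / 3) ^ 3 ≤ (α + n) ^ 3 :=
      pow_le_pow_left₀ (by positivity) (by linarith) 3
    have h4 : ((n : ℝ) + 1) ^ 2 * (n + 2) ≤ ((n : ℝ) + 1 + 1 / 3) ^ 3 := by nlinarith
    have h5 := mul_le_mul (h4.trans h3) ih h1.le (by positivity)
    rw [← h2, mul_pow] at h5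
    apply le_of_mul_le_mul_left _ (show 0 < ((n : ℝ) + 1) ^ 3 by positivity)
    push_cast
    nlinarith

lemma HH_le (hα : 0 < α) {A : ℕ} (hA : α ≤ A) (y : ℕ) : HH α y ≤ ((y : ℝ) + 1) ^ A := by
  have := HH_ratio hα hA (x := 0) (y := y) (by omega)
  simpa [HH, hh_zero] using this

lemma gg_le (hα : 4 / 3 ≤ α) {A : ℕ} (hA : α ≤ A) {b n : ℕ} (hn : 1 ≤ n)
    (hb : (b + 1) ^ (9 * A) ≤ n + 1) {r : ℕ} (hr : r ≤ n) :
    gg α (b + 1) r ≤ 2 * 2 ^ A * hh α n / HH α b := by
  have hα0 : 0 < α := by linarith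
  have hα1 : 1 ≤ α := by linarith
  have hH := HH_pos hα0 b
  have hp := hh_pos hα0 n
  rw [le_div_iff₀ hH]
  by_cases h : b * b < r
  · have hr0 : (0 : ℝ) < r := by exact_mod_cast (by omega : 0 < r)
    have h1 := gg_rec hα0 (b + 1) r (by omega)
    have h2 := gg_sum_le hα0 b r
    obtain ⟨t, ht⟩ : ∃ t, r + b * b = t + 1 := ⟨r + b * b - 1, by omega⟩
    have h3 := hh_succ_HH α t
    have h4 : hh α (t + 1) ≤ (2 : ℕ) ^ A * hh α n :=
      (hh_mono hα1 (show t + 1 ≤ 2 * n by omega)).trans (hh_ratio hα0 hA hn (by omega) le_rfl)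
    have h5 : (t : ℝ) + 1 ≤ 2 * r := by exact_mod_cast (by omega : t + 1 ≤ 2 * r)
    rw [ht] at h2
    change _ ≤ HH α t at h2
    push_cast at h4
    apply le_of_mul_le_mul_left _ hr0
    calc (r : ℝ) * (gg α (b + 1) r * HH α b) = HH α b * (r * gg α (b + 1) r) := by ring
      _ ≤ HH α b * (α * ∑ s ∈ range r, gg α (b + 1) s) := mul_le_mul_of_nonneg_left h1 hH.le
      _ = α * (HH α b * ∑ s ∈ range r, gg α (b + 1) s) := by ring
      _ ≤ α * HH α t := mul_le_mul_of_nonneg_left h2 hα0.le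
      _ = ((t : ℝ) + 1) * hh α (t + 1) := h3.symm
      _ ≤ (2 * r) * (2 ^ A * hh α n) := mul_le_mul h5 h4 (hh_pos hα0 _).le (by positivity)
      _ = _ := by ring
  · have h1 : gg α (b + 1) r ≤ hh α r := EE_mono hα0.le r fun _ _ => ind_le_one _
    have h2 : hh α r ≤ HH α (b * b) := single_le_sum (f := hh α) (fun i _ => (hh_pos hα0 i).le)
      (mem_range.2 (by omega))
    have h3 := HH_le hα0 hA (b * b)
    have h4 := HH_le hα0 hA b
    have h5 : (((b * b : ℕ) : ℝ) + 1) ^ A ≤ (((b : ℝ) + 1) ^ 2) ^ A := by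
      have : (0 : ℝ) ≤ b := by positivity
      gcongr
      push_cast
      nlinarith
    have h6 : (((b : ℝ) + 1) ^ 2) ^ A * ((b : ℝ) + 1) ^ A ≤ hh α n := by
      apply le_of_pow_le_pow_left₀ (n := 3) (by norm_num) hp.le
      refine le_trans (le_of_eq ?_) (le_trans ?_ (hh_cube hα n) : ((b : ℝ) + 1) ^ (9 * A) ≤ _)
      · rw [← pow_mul, ← pow_add, ← pow_mul]; congr 1; ring
      · exact_mod_cast hb
    have h7 := mul_le_mul (h1.trans (h2.trans (h3.trans h5))) h4 hH.le (by positivity)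
    have h8 : (1 : ℝ) ≤ 2 ^ A := one_le_pow₀ (by norm_num)
    nlinarith

lemma exp_sum_le (hα : 0 < α) (b : ℕ) :
    Real.exp (∑ a ∈ Ico 1 (b + 1), α / a + 2 * α ^ 2 / (b + 1)) ≤
      Real.exp (2 * α ^ 2) * HH α b := by
  induction b with
  | zero => simp [HH, hh_zero]
  | succ b ih =>
    rw [sum_Ico_succ_top (by omega), HH_succ, ← mul_assoc]
    push_cast
    set x := α / ((b : ℝ) + 1) with hx
    have hb : (0 : ℝ) ≤ b := by positivity
    have hx0 : 0 ≤ x := by positivity
    have h1 : Real.exp (x - x ^ 2) ≤ 1 + x := by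
      have a1 := Real.add_one_le_exp (-(x - x ^ 2))
      have a2 : Real.exp (x - x ^ 2) * Real.exp (-(x - x ^ 2)) = 1 := by
        rw [← Real.exp_add]; simp
      have a3 := Real.exp_pos (x - x ^ 2)
      have a4 : 0 < -(x - x ^ 2) + 1 := by nlinarith
      apply le_of_mul_le_mul_right _ a4
      have a5 := mul_le_mul_of_nonneg_left a1 a3.le
      have a6 : 0 ≤ x ^ 3 := by positivity
      nlinarith
    have h2 : 2 * α ^ 2 / ((b : ℝ) + 1 + 1) ≤ 2 * α ^ 2 / (b + 1) - x ^ 2 := by
      have : 2 * α ^ 2 / (b + 1) - x ^ 2 - 2 * α ^ 2 / ((b : ℝ) + 1 + 1)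
          = α ^ 2 * b / ((b + 1) ^ 2 * (b + 2)) := by
        rw [hx]; field_simp; ring
      have h3 : 0 ≤ α ^ 2 * b / (((b : ℝ) + 1) ^ 2 * (b + 2)) := by positivity
      linarith
    refine le_trans ?_ (mul_le_mul ih h1 (Real.exp_pos _).le
      (mul_pos (Real.exp_pos _) (HH_pos hα b)).le)
    rw [← Real.exp_add]
    apply Real.exp_le_exp.2
    linarith

theorem transfer (hα : 4 / 3 ≤ α) : ∃ (K : ℝ) (A : ℕ), 1 ≤ K ∧ ∀ b n : ℕ, 1 ≤ n →
    (b + 1) ^ A ≤ n + 1 → ∀ G : Finset ℕ → ℝ, (∀ X, 0 ≤ G X) →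
      EE α n (fun m => G (m.toFinset ∩ Ico 1 (b + 1))) ≤ K * hh α n * Eb α (Ico 1 (b + 1)) G := by
  have hα0 : 0 < α := by linarith
  set A := ⌈α⌉₊ with hAdef
  have hA : α ≤ A := Nat.le_ceil α
  refine ⟨2 * 2 ^ A * Real.exp (2 * α ^ 2), 9 * A, ?_, fun b n hn hb G hG => ?_⟩
  · have h8 : (1 : ℝ) ≤ 2 ^ A := one_le_pow₀ (by norm_num)
    have h9 : 1 ≤ Real.exp (2 * α ^ 2) := Real.one_le_exp (by positivity)
    nlinarith
  have hH := HH_pos hα0 b
  have hp := hh_pos hα0 n
  have h1 := peel_all hα0 n (b + 1) (S := 2 * 2 ^ A * hh α n / HH α b) (by positivity)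
    (fun r hr => gg_le hα hA hn hb hr) b 1 le_rfl (by omega) G hG n le_rfl
  rw [EE_congr α n (G := fun m => G (m.toFinset ∩ Ico 1 (b + 1))) (fun m hm => by
    rw [ind_pos (show ∀ a ∈ m, 1 ≤ a from (mem_PP.1 hm).2), one_mul])] at h1
  refine h1.trans (mul_le_mul_of_nonneg_right ?_ (Eb_nonneg hα0 _ hG))
  have h2 : Real.exp (∑ a ∈ Ico 1 (b + 1), α / a) ≤ Real.exp (2 * α ^ 2) * HH α b := by
    refine le_trans (Real.exp_le_exp.2 ?_) (exp_sum_le hα0 b)
    have : 0 ≤ 2 * α ^ 2 / ((b : ℝ) + 1) := by positivity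
    linarith
  calc _ ≤ 2 * 2 ^ A * hh α n / HH α b * (Real.exp (2 * α ^ 2) * HH α b) := by gcongr
    _ = _ := by field_simp

open Equiv Pool.Agent.Results.MP_afae70_pr.LogSuffices in
lemma transfer_N (hα : 0 < α) {n N : ℕ} (B : Finset ℕ) {K : ℝ}
    (h : ∀ G : Finset ℕ → ℝ, (∀ X, 0 ≤ G X) →
      EE α n (fun m => G (m.toFinset ∩ B)) ≤ K * hh α n * Eb α B G)
    (F : (Fin N → Finset ℕ) → ℝ) (hF : ∀ X, 0 ≤ F X) :
    ∑ σ : Fin N → Perm (Fin n), (∏ i, ewens α (σ i)) *
      F (fun i => (σ i).partition.parts.toFinset ∩ B) ≤ K ^ N * EN α N B F := by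
  have hp := hh_pos hα n
  have h1 : ∀ Z ⊆ B, ∑ σ : Perm (Fin n),
      ewens α σ * ind (σ.partition.parts.toFinset ∩ B = Z) ≤ K * wt α B Z := by
    intro Z hZ
    rw [sum_ewens hα n (fun m => ind (m.toFinset ∩ B = Z)), div_le_iff₀ hp]
    have := h (fun X => ind (X = Z)) fun _ => ind_nonneg _
    rw [Eb_point α hZ] at this
    linarith
  have h2 : ∀ σ : Fin N → Perm (Fin n), (∏ i, ewens α (σ i)) *
      F (fun i => (σ i).partition.parts.toFinset ∩ B) =
      ∑ Z ∈ Fintype.piFinset (fun _ : Fin N => B.powerset),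
        (∏ i, ewens α (σ i) * ind ((σ i).partition.parts.toFinset ∩ B = Z i)) * F Z := by
    intro σ
    rw [sum_eq_single (fun i => (σ i).partition.parts.toFinset ∩ B)]
    · simp only [ind_pos, mul_one]
    · intro Z _ hZ
      obtain ⟨i, hi⟩ := Function.ne_iff.1 hZ
      rw [prod_eq_zero (mem_univ i), zero_mul]
      rw [ind_neg hi.symm, mul_zero]
    · intro h'
      exact absurd (Fintype.mem_piFinset.2 fun i => mem_powerset.2 inter_subset_right) h'
  rw [sum_congr rfl fun σ _ => h2 σ, sum_comm]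
  unfold EN
  rw [mul_sum]
  apply sum_le_sum
  intro Z hZ
  rw [← sum_mul, ← mul_assoc]
  apply mul_le_mul_of_nonneg_right _ (hF Z)
  rw [← Fintype.piFinset_univ, ← prod_univ_sum (fun _ : Fin N => (univ : Finset (Perm (Fin n))))
    (fun i σ => ewens α σ * ind (σ.partition.parts.toFinset ∩ B = Z i))]
  calc _ ≤ ∏ i, K * wt α B (Z i) := prod_le_prod
        (fun i _ => sum_nonneg fun σ _ => mul_nonneg (ewens_nonneg hα σ) (ind_nonneg _))
        (fun i _ => h1 _ (mem_powerset.1 (Fintype.mem_piFinset.1 hZ i)))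
    _ = _ := by rw [prod_mul_distrib, prod_const, card_univ, Fintype.card_fin]

end Pool.Agent.MP_afae70_pr.LL
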