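import Pool.Agent.MP_afae70_pr.LL.Est

/-!
# A multiple of `log log n` Ewens permutations invariably generate
-/

namespace Pool.Agent.MP_afae70_pr.LL

section Group

open Equiv Equiv.Perm MulAction Subgroup Pointwise

variable {X : Type} [Fintype X] [DecidableEq X]

lemma exists_cycle_pow' (σ : Perm X) {p : ℕ} (hp : p.Prime) (hmem : p ∈ σ.partition.parts)
    (hn : ∀ a ∈ σ.partition.parts.erase p, ¬ p ∣ a) :
    ∃ k : ℕ, (σ ^ k).IsCycle ∧ (σ ^ k).support.card = p := by
  have h2 := hp.two_le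
  have hc : p ∈ σ.cycleType := by
    rw [← filter_parts_partition_eq_cycleType, Multiset.mem_filter]; exact ⟨hmem, h2⟩
  obtain ⟨c, τ, rfl, hd, hcc, hcp⟩ := mem_cycleType_iff.1 hc
  have hτ1 : τ ^ τ.cycleType.prod = 1 := by
    rw [← orderOf_dvd_iff_pow_eq_one, ← lcm_cycleType, Multiset.lcm_dvd]
    intro b hb
    exact Multiset.dvd_prod hb
  have hnd : ¬ p ∣ τ.cycleType.prod := by
    intro h
    obtain ⟨a, ha, hpa⟩ := hp.prime.exists_mem_multiset_dvd h
    apply hn a _ hpa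
    rw [parts_partition, hd.cycleType_mul, hcc.cycleType, hcp, add_assoc, Multiset.singleton_add,
      Multiset.erase_cons_head]
    exact Multiset.mem_add.2 (Or.inl ha)
  have hco : orderOf c = p := by rw [hcc.orderOf, hcp]
  refine ⟨τ.cycleType.prod, ?_⟩
  rw [hd.commute.mul_pow, hτ1, mul_one]
  refine ⟨hcc.pow_iff.2 ?_, ?_⟩
  · rw [hco]; exact ((Nat.Prime.coprime_iff_not_dvd hp).2 hnd).symm
  · rw [hcc.support_pow_eq_iff.2 (by rwa [hco]), hcp]

lemma exists_fixed (σ : Perm X) (h : 1 ∈ σ.partition.parts) : ∃ x, σ x = x := by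
  rw [parts_partition, Multiset.mem_add] at h
  rcases h with h | h
  · have := two_le_of_mem_cycleType h; omega
  · have h1 := (Multiset.mem_replicate.1 h).1
    by_contra hx
    push Not at hx
    have : σ.support = Finset.univ := Finset.eq_univ_iff_forall.2 fun x => mem_support.2 (hx x)
    rw [this] at h1
    simp at h1

theorem closure_eq_top' {ι : Type} (ρ : ι → Perm X)
    (h1 : ∀ k, 1 ≤ k → 2 * k ≤ Fintype.card X →
      ∃ i L, k < L ∧ smallSum L (ρ i).partition.parts < k ∧ (2 ≤ k → 1 ∈ (ρ i).partition.parts))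
    (h2 : ∃ i p, p + 3 ≤ Fintype.card X ∧ p.Prime ∧ p ∈ (ρ i).partition.parts ∧
      ∀ a ∈ (ρ i).partition.parts.erase p, ¬ p ∣ a)
    (h3 : ∃ i, Odd (Fintype.card X + (ρ i).partition.parts.card)) :
    closure (Set.range ρ) = ⊤ := by
  classical
  set G := closure (Set.range ρ) with hG
  have hρ : ∀ i, ρ i ∈ G := fun i => subset_closure ⟨i, rfl⟩
  have hinv : ∀ S : Finset X, (∀ i, ∀ x ∈ S, ρ i x ∈ S) → 1 ≤ S.card →
      2 * S.card ≤ Fintype.card X → False := by
    intro S hS a1 a2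
    obtain ⟨i, L, b1, b2, -⟩ := h1 _ a1 a2
    have := le_smallSum_of_invariant (ρ i) S (hS i) b1 (by omega)
    omega
  have htr : IsPretransitive G X := by
    constructor
    intro x y
    by_contra hxy
    set S : Finset X := Finset.univ.filter (fun z => ∃ g : G, g • x = z) with hS
    have hSi : ∀ (g : G) z, z ∈ S → (g : Perm X) z ∈ S := by
      intro g z hz
      simp only [hS, Finset.mem_filter, Finset.mem_univ, true_and] at hz ⊢
      obtain ⟨g', rfl⟩ := hz
      exact ⟨g * g', mul_smul _ _ _⟩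
    have hx : x ∈ S := by
      simp only [hS, Finset.mem_filter, Finset.mem_univ, true_and]; exact ⟨1, rfl⟩
    have hy : y ∈ Sᶜ := by simpa [hS] using hxy
    by_cases hc : 2 * S.card ≤ Fintype.card X
    · exact hinv S (fun i => hSi ⟨ρ i, hρ i⟩) (Finset.card_pos.2 ⟨x, hx⟩) hc
    · refine hinv Sᶜ (fun i z hz => ?_) (Finset.card_pos.2 ⟨y, hy⟩)
        (by rw [Finset.card_compl]; omega)
      rw [Finset.mem_compl] at hz ⊢
      intro hz'
      apply hz
      have := hSi (⟨ρ i, hρ i⟩⁻¹) _ hz'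
      simpa using this
  have hprim : IsPreprimitive G X := by
    refine { toIsPretransitive := htr, isTrivialBlock_of_isBlock := fun {B} hB => ?_ }
    by_contra hnt
    have c1 : 2 ≤ B.ncard := by
      by_contra h
      exact hnt (Or.inl ((Set.ncard_le_one_iff_subsingleton).1 (by omega)))
    have c2 : 2 * B.ncard ≤ Fintype.card X := by
      by_contra h
      exact hnt (Or.inr (hB.eq_univ_of_card_lt (by rw [Nat.card_eq_fintype_card]; omega)))
    obtain ⟨i, L, b1, b2, b3⟩ := h1 _ (by omega) c2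
    obtain ⟨x, hx⟩ := exists_fixed _ (b3 c1)
    obtain ⟨y, hy⟩ : B.Nonempty := Set.nonempty_of_ncard_ne_zero (by omega)
    obtain ⟨g, hg⟩ := htr.exists_smul_eq y x
    have hB' := hB.translate g
    have hxB : x ∈ g • B := ⟨y, hy, hg⟩
    have hfix : (⟨ρ i, hρ i⟩ : G) • (g • B) = g • B :=
      isBlock_iff_smul_eq_of_mem.1 hB' hxB (by
        change ρ i x ∈ g • B
        rwa [hx])
    have hcard : (g • B).toFinset.card = B.ncard := by
      rw [← Set.ncard_eq_toFinset_card', Set.ncard_smul_set]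
    have := le_smallSum_of_invariant (ρ i) (g • B).toFinset (fun z hz => by
      rw [Set.mem_toFinset] at hz ⊢
      rw [← hfix]
      exact ⟨z, hz, rfl⟩) (L := L) (by omega) (by omega)
    omega
  obtain ⟨i, p, hp2, hp, hp3, hp1⟩ := h2
  obtain ⟨k, hk1, hk2⟩ := exists_cycle_pow' (ρ i) hp hp3 hp1
  have hkG : ρ i ^ k ∈ G := G.pow_mem (hρ i) k
  have halt := jordan_prime_cycle hprim hp hp2 hk1 hk2 hkG
  obtain ⟨j, hj⟩ := h3
  have hj' := sign_eq_of_odd _ hj
  rw [eq_top_iff]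
  intro g _
  rcases Int.units_eq_one_or (sign g) with h | h
  · exact halt (mem_alternatingGroup.2 h)
  · have : g * (ρ j)⁻¹ ∈ G := halt (mem_alternatingGroup.2 (by simp [h, hj']))
    simpa using G.mul_mem this (hρ j)

end Group

open Finset Filter Equiv Pool.Agent.Results.MP_afae70_pr.LogSuffices

variable {α : ℝ}

lemma prob_eq (α : ℝ) (n N : ℕ) :
    prob α n N = ∑ σ : Fin N → Perm (Fin n), (∏ i, ewens α (σ i)) * ind (InvGen σ) := by
  unfold prob ind
  apply sum_congr rfl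
  intro σ _
  split_ifs <;> simp

lemma sum_weight (hα : 0 < α) (n N : ℕ) :
    ∑ σ : Fin N → Perm (Fin n), (∏ i, ewens α (σ i)) = 1 := by
  rw [← Fintype.sum_pow, sum_ewens_one hα, one_pow]

lemma weight_nonneg (hα : 0 < α) {n N : ℕ} (σ : Fin N → Perm (Fin n)) :
    0 ≤ ∏ i, ewens α (σ i) := prod_nonneg fun _ _ => ewens_nonneg hα _

lemma prob_nonneg (hα : 0 < α) (n N : ℕ) : 0 ≤ prob α n N := by
  rw [prob_eq]
  exact sum_nonneg fun σ _ => mul_nonneg (weight_nonneg hα σ) (ind_nonneg _)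

lemma prob_le_one (hα : 0 < α) (n N : ℕ) : prob α n N ≤ 1 := by
  rw [prob_eq, ← sum_weight hα n N]
  exact sum_le_sum fun σ _ => mul_le_of_le_one_right (weight_nonneg hα σ) (ind_le_one _)

lemma union_bound (hα : 0 < α) (n N : ℕ) (I : Finset ℕ) (B : ℕ → Multiset ℕ → Prop) {δ : ℝ}
    (h : ∀ j ∈ I, δ * hh α n ≤ EE α n (fun m => ind (B j m)))
    (hg : ∀ σ : Fin N → Perm (Fin n), (∀ j ∈ I, ∃ i, B j (σ i).partition.parts) → InvGen σ) :
    1 - I.card * Real.exp (-(δ * N)) ≤ prob α n N := by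
  classical
  have e : ∀ j ∈ I, ∑ σ : Fin N → Perm (Fin n), (∏ i, ewens α (σ i)) *
      ind (∀ i, ¬ B j (σ i).partition.parts) ≤ Real.exp (-(δ * N)) := by
    intro j hj
    have := all_fail hα n N (B j) (δ := δ) (by simpa only [ind_eq] using h j hj)
    simpa only [ind_eq] using this
  have e2 := sum_le_card_nsmul _ _ _ e
  rw [nsmul_eq_mul, sum_comm] at e2
  have key : ∀ σ : Fin N → Perm (Fin n), (∏ i, ewens α (σ i)) -
      ∑ j ∈ I, (∏ i, ewens α (σ i)) * ind (∀ i, ¬ B j (σ i).partition.parts) ≤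
      (∏ i, ewens α (σ i)) * ind (InvGen σ) := by
    intro σ
    rw [← mul_sum, ← mul_one_sub]
    apply mul_le_mul_of_nonneg_left _ (weight_nonneg hα σ)
    by_cases hgen : InvGen σ
    · rw [ind_pos hgen]
      have : 0 ≤ ∑ j ∈ I, ind (∀ i, ¬ B j (σ i).partition.parts) :=
        sum_nonneg fun _ _ => ind_nonneg _
      linarith
    · have : ¬ ∀ j ∈ I, ∃ i, B j (σ i).partition.parts := fun h => hgen (hg σ h)
      push Not at this
      obtain ⟨j, hj, hj'⟩ := this
      have := single_le_sum (f := fun j => ind (∀ i, ¬ B j (σ i).partition.parts))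
        (fun _ _ => ind_nonneg _) hj
      simp only [ind_pos hj'] at this
      rw [ind_neg hgen]
      linarith
  have hsum := sum_le_sum (s := univ) fun σ _ => key σ
  rw [sum_sub_distrib, sum_weight hα, ← prob_eq] at hsum
  linarith

lemma prob_ge' (hα : 1 ≤ α) : ∃ δ : ℝ, 0 < δ ∧ ∀ᶠ n : ℕ in atTop, ∀ N : ℕ,
    1 - (Nat.log 2 n + 3) * Real.exp (-(δ * N)) ≤ prob α n N := by
  have hα0 : 0 < α := by linarith
  obtain ⟨δ1, hδ1, hA⟩ := estA hα0
  obtain ⟨δ2, hδ2, hC⟩ := estC hα0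
  obtain ⟨δ3, hδ3, hF⟩ := estF hα
  obtain ⟨δ4, hδ4, hP⟩ := estP hα
  refine ⟨min (min δ1 δ2) (min δ3 δ4), by positivity, ?_⟩
  filter_upwards [hP, eventually_ge_atTop 2] with n hPn hn N
  have hp := hh_pos hα0 n
  let B : ℕ → Multiset ℕ → Prop := fun j m => match j with
    | 0 => Odd (n + m.card)
    | 1 => ∃ p, p + 3 ≤ n ∧ p.Prime ∧ p ∈ m ∧ ∀ a ∈ m.erase p, ¬ p ∣ a
    | 2 => smallSum 2 m < 1
    | (j + 3) => 2 * 2 ^ (j + 1) ≤ n →
        1 ∈ m ∧ smallSum (min (2 * 2 ^ (j + 1)) (n / 2 + 1)) m < 2 ^ (j + 1)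
  have d1 : min (min δ1 δ2) (min δ3 δ4) ≤ δ1 := (min_le_left _ _).trans (min_le_left _ _)
  have d2 : min (min δ1 δ2) (min δ3 δ4) ≤ δ2 := (min_le_left _ _).trans (min_le_right _ _)
  have d3 : min (min δ1 δ2) (min δ3 δ4) ≤ δ3 := (min_le_right _ _).trans (min_le_left _ _)
  have d4 : min (min δ1 δ2) (min δ3 δ4) ≤ δ4 := (min_le_right _ _).trans (min_le_right _ _)
  have := union_bound hα0 n N (range (Nat.log 2 n + 3)) B (δ := min (min δ1 δ2) (min δ3 δ4)) ?_ ?_
  · simpa using this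
  · intro j _
    match j with
    | 0 =>
      refine (mul_le_mul_of_nonneg_right d2 hp.le).trans ?_
      simpa only [B, ind_eq] using hC n hn
    | 1 => exact (mul_le_mul_of_nonneg_right d4 hp.le).trans hPn
    | 2 =>
      refine (mul_le_mul_of_nonneg_right d1 hp.le).trans ?_
      simpa only [B, ind_eq] using hA n 1 2 (by omega) le_rfl (by omega) le_rfl (by omega)
    | (j + 3) =>
      by_cases hj : 2 * 2 ^ (j + 1) ≤ n
      · refine (mul_le_mul_of_nonneg_right d3 hp.le).trans ?_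
        have h2 : 2 ≤ 2 ^ (j + 1) := by
          rw [pow_succ]; have := Nat.one_le_two_pow (n := j); omega
        refine (hF n (2 ^ (j + 1)) (min (2 * 2 ^ (j + 1)) (n / 2 + 1)) hn h2 (by omega) (by omega)
          (by omega)).trans (EE_mono hα0.le n fun m _ => ?_)
        rw [← ind_eq]
        exact ind_mono fun h _ => h
      · refine (mul_le_mul_of_nonneg_right d2 hp.le).trans ((hC n hn).trans
          (EE_mono hα0.le n fun m _ => ?_))
        rw [← ind_eq]
        exact ind_mono fun _ h => absurd h hj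
  · intro σ hσ τ
    have hpar : ∀ i, (τ i * σ i * (τ i)⁻¹).partition = (σ i).partition := fun i =>
      (Perm.partition_eq_of_isConj.1 (isConj_iff.2 ⟨τ i, rfl⟩)).symm
    have hcard := Fintype.card_fin n
    apply closure_eq_top'
    · intro k hk1 hk2
      rw [Fintype.card_fin] at hk2
      by_cases hk : k = 1
      · obtain ⟨i, hi⟩ := hσ 2 (mem_range.2 (by omega))
        refine ⟨i, 2, by omega, ?_, by omega⟩
        rw [hpar, hk]; exact hi
      have a1 : 2 ^ Nat.log 2 k ≤ k := Nat.pow_log_le_self 2 (by omega)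
      have a2 : k < 2 ^ (Nat.log 2 k + 1) := Nat.lt_pow_succ_log_self (by norm_num) k
      have a3 : Nat.log 2 k ≤ Nat.log 2 n := Nat.log_mono_right (by omega)
      have a4 : 1 ≤ Nat.log 2 k := Nat.le_log_of_pow_le (by norm_num) (by omega)
      obtain ⟨j, hj⟩ : ∃ j, Nat.log 2 k = j + 1 := ⟨Nat.log 2 k - 1, by omega⟩
      rw [pow_succ] at a2
      rw [hj] at a1 a2
      obtain ⟨i, hi⟩ := hσ (j + 3) (mem_range.2 (by omega))
      obtain ⟨b1, b2⟩ := hi (by omega)
      refine ⟨i, min (2 * 2 ^ (j + 1)) (n / 2 + 1), by omega, ?_, fun _ => ?_⟩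
      · rw [hpar]; exact lt_of_lt_of_le b2 a1
      · rw [hpar]; exact b1
    · obtain ⟨i, p, b1, b2⟩ := hσ 1 (mem_range.2 (by omega))
      refine ⟨i, p, by omega, ?_⟩
      rw [hpar]; exact b2
    · obtain ⟨i, hi⟩ := hσ 0 (mem_range.2 (by omega))
      refine ⟨i, ?_⟩
      rw [hpar]
      simpa only [Fintype.card_fin] using hi

theorem upper (hα : 1 ≤ α) : ∃ β : ℝ, 0 < β ∧ ∀ β' : ℝ, β ≤ β' → ∀ N : ℕ → ℕ,
    (∀ᶠ n : ℕ in atTop, β' * Real.log (Real.log n) ≤ N n) →
    Tendsto (fun n : ℕ => prob α n (N n)) atTop (nhds 1) := by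
  have hα0 : 0 < α := by linarith
  obtain ⟨δ, hδ, h⟩ := prob_ge' hα
  refine ⟨2 / δ, by positivity, fun β' hβ N hN => ?_⟩
  have hlog : Tendsto (fun n : ℕ => Real.log n) atTop atTop :=
    Real.tendsto_log_atTop.comp tendsto_natCast_atTop_atTop
  have hlim : Tendsto (fun n : ℕ => 1 - 5 * (Real.log n)⁻¹) atTop (nhds (1 - 5 * 0)) :=
    (hlog.inv_tendsto_atTop.const_mul 5).const_sub 1
  rw [mul_zero, sub_zero] at hlim
  refine tendsto_of_tendsto_of_tendsto_of_le_of_le' hlim tendsto_const_nhds ?_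
    (Eventually.of_forall fun n => prob_le_one hα0 _ _)
  filter_upwards [h, hlog.eventually_ge_atTop 1, eventually_ge_atTop 1, hN] with n h1 h5 h3 a1
  refine le_trans ?_ (h1 _)
  set x := Real.log n with hx
  have hx0 : 0 < x := by linarith
  have hl : 0 ≤ Real.log x := Real.log_nonneg h5
  have b1 : (Nat.log 2 n : ℝ) + 3 ≤ 5 * x := by
    have a1 : ((2 ^ Nat.log 2 n : ℕ) : ℝ) ≤ n := by
      exact_mod_cast Nat.pow_log_le_self 2 (by omega)
    have a2 := Real.log_le_log (by positivity) a1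
    push_cast at a2
    rw [Real.log_pow] at a2
    have a3 := Real.log_two_gt_d9
    have a4 : (0 : ℝ) ≤ Nat.log 2 n := by positivity
    nlinarith
  have b2 : Real.exp (-(δ * N n)) ≤ x⁻¹ * x⁻¹ := by
    rw [← Real.exp_log (show 0 < x⁻¹ * x⁻¹ by positivity), Real.log_mul (by positivity)
      (by positivity), Real.log_inv]
    apply Real.exp_le_exp.2
    have a2 : 2 ≤ δ * β' := by rwa [div_le_iff₀' hδ] at hβ
    have a3 := mul_le_mul_of_nonneg_left a1 hδ.le
    have a4 := mul_le_mul_of_nonneg_right a2 hl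
    nlinarith
  have b4 := mul_le_mul b1 b2 (Real.exp_pos _).le (by linarith)
  have b5 : 5 * x * (x⁻¹ * x⁻¹) = 5 * x⁻¹ := by field_simp
  linarith

end Pool.Agent.MP_afae70_pr.LL
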