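import Pool.Agent.MP_afae70_pr.LL.Drift
import Pool.Agent.MP_afae70_pr.LL.Transfer
import Pool.Agent.MP_afae70_pr.LL.Upper

/-!
# A small multiple of `log log n` Ewens permutations have a common invariant set size
-/

open Finset Filter

namespace Pool.Agent.MP_afae70_pr.LL

/-- The scales. -/
def uu (M : ℕ) : ℕ → ℕ
  | 0 => M
  | t + 1 => uu M t + uu M t / M

lemma uu_mono (M : ℕ) : Monotone (uu M) :=
  monotone_nat_of_le_succ fun _ => Nat.le_add_right _ _

lemma le_uu (M t : ℕ) : M ≤ uu M t := uu_mono M (Nat.zero_le t)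

lemma uu_le (M t : ℕ) : uu M t ≤ M * 2 ^ t := by
  induction t with
  | zero => simp [uu]
  | succ t ih =>
    have := Nat.div_le_self (uu M t) M
    rw [uu, pow_succ, ← mul_assoc]
    omega

lemma uu_grow (M t s : ℕ) : uu M t + s * (uu M t / M) ≤ uu M (t + s) := by
  induction s with
  | zero => simp
  | succ s ih =>
    have : uu M t / M ≤ uu M (t + s) / M := Nat.div_le_div_right (uu_mono M (by omega))
    rw [← add_assoc, uu, add_mul, one_mul]
    omega

lemma uu_big {M W s : ℕ} (hM : 1 ≤ M) (hs : 2 * M * (W + 1) ≤ s) (t : ℕ) :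
    (W + 1) * uu M t < uu M (t + s) := by
  have h1 := uu_grow M t s
  have h2 := le_uu M t
  have n2 : uu M t < M * (uu M t / M + 1) := Nat.lt_mul_div_succ _ (by omega)
  have n3 : 1 ≤ uu M t / M := Nat.div_pos h2 (by omega)
  have n4 : uu M t ≤ 2 * M * (uu M t / M) := by nlinarith
  have n5 := Nat.mul_le_mul_left (W + 1) n4
  have n6 := Nat.mul_le_mul_right (uu M t / M) hs
  nlinarith

variable {α : ℝ}

lemma Ico_split {a b c : ℕ} (h1 : a ≤ b) (h2 : b ≤ c) :
    Ico a c = Ico a b ∪ Ico b c ∧ Disjoint (Ico a b) (Ico b c) :=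
  ⟨(Ico_union_Ico_eq_Ico h1 h2).symm, Ico_disjoint_Ico_consecutive a b c⟩

lemma lt_of_union {X Y : Finset ℕ} {a b : ℕ} (hab : a ≤ b) (hX : ∀ j ∈ X, j < a)
    (hY : Y ⊆ Ico a b) : ∀ j ∈ X ∪ Y, j < b := by
  intro j hj
  rcases mem_union.1 hj with h | h
  · exact lt_of_lt_of_le (hX j h) hab
  · exact (mem_Ico.1 (hY h)).2

lemma drift_iter (hα : 1 / Real.log 2 < α) : ∃ (M : ℕ) (ρ C : ℝ), 2 ≤ M ∧ 0 < ρ ∧ ρ < 1 ∧ 0 < C ∧
    ∀ (s t : ℕ) (X : Finset ℕ), (∀ j ∈ X, j < uu M t) →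
      Eb α (Ico (uu M t) (uu M (t + s))) (fun Y => WW M (uu M (t + s)) (X ∪ Y)) ≤
        ρ ^ s * WW M (uu M t) X + C := by
  have hα0 : 0 < α := lt_trans (one_div_pos.2 (Real.log_pos (by norm_num))) hα
  obtain ⟨M, ρ, C, hM, hρ0, hρ1, hC, h⟩ := drift hα
  have h1ρ : 0 < 1 - ρ := by linarith
  refine ⟨M, ρ, C / (1 - ρ), hM, hρ0, hρ1, by positivity, fun s t X hX => ?_⟩
  induction s with
  | zero =>
    have : 0 < C / (1 - ρ) := by positivity
    simp only [add_zero, Ico_self, Eb_empty, union_empty, pow_zero, one_mul]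
    linarith
  | succ s ih =>
    have m1 : uu M t ≤ uu M (t + s) := uu_mono M (by omega)
    obtain ⟨e1, e2⟩ := Ico_split m1 (uu_mono M (show t + s ≤ t + (s + 1) by omega))
    rw [e1, Eb_union α e2]
    have a1 := Eb_mono hα0 (Ico (uu M t) (uu M (t + s)))
      (F := fun Y => Eb α (Ico (uu M (t + s)) (uu M (t + (s + 1))))
        (fun Z => WW M (uu M (t + (s + 1))) (X ∪ (Y ∪ Z))))
      (G := fun Y => C + ρ * WW M (uu M (t + s)) (X ∪ Y)) (fun Y hY => by
        have := h (uu M (t + s)) (le_uu M _) (X ∪ Y) (lt_of_union m1 hX hY)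
        simp only [← union_assoc]
        rw [add_comm C]
        exact this)
    rw [Eb_affine] at a1
    have a2 := mul_le_mul_of_nonneg_left ih hρ0.le
    have a3 : C + ρ * (C / (1 - ρ)) = C / (1 - ρ) := by field_simp; ring
    rw [pow_succ]
    nlinarith

lemma epoch (hα : 1 / Real.log 2 < α) : ∃ (M W : ℕ) (ρ C q : ℝ), 2 ≤ M ∧ 0 < ρ ∧ ρ < 1 ∧ 0 < C ∧
    0 < q ∧ q ≤ 1 ∧ ∀ (s t : ℕ) (X : Finset ℕ), (∀ j ∈ X, j < uu M t) →
      Eb α (Ico (uu M t) (uu M (t + s))) (fun Y => WW M (uu M (t + s)) (X ∪ Y)) ≤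
        WW M (uu M t) X + C ∧
      (2 * M * (W + 1) ≤ s → ρ ^ s * WW M (uu M t) X ≤ 1 →
        q ≤ Eb α (Ico (uu M t) (uu M (t + 2 * s)))
          (fun Y => ind ((W + 1) * uu M (t + s) ∈ sums (X ∪ Y)))) := by
  have hα0 : 0 < α := lt_trans (one_div_pos.2 (Real.log_pos (by norm_num))) hα
  obtain ⟨M, ρ, C, hM, hρ0, hρ1, hC, h⟩ := drift_iter hα
  set W := ⌈2 * (1 + C)⌉₊ with hW
  have hW1 : 2 * (1 + C) ≤ W := Nat.le_ceil _
  have hW0 : (0 : ℝ) < W := by linarith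
  have hW2 : 1 ≤ W := by exact_mod_cast hW0
  set q := 1 - Real.exp (-(α / (W ^ M * (W + 1)))) with hq
  have hq0 : 0 < q := sub_pos.2 (Real.exp_lt_one_iff.2 (neg_neg_iff_pos.2 (by positivity)))
  have hq1 : q ≤ 1 := sub_le_self _ (Real.exp_pos _).le
  refine ⟨M, W, ρ, C, q / 2, hM, hρ0, hρ1, hC, by positivity, by linarith, fun s t X hX => ⟨?_, ?_⟩⟩
  · have := mul_le_of_le_one_left (WW_nonneg M (uu M t) X) (pow_le_one₀ (n := s) hρ0.le hρ1.le)
    linarith [h s t X hX]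
  intro hs hW'
  have m1 : uu M t ≤ uu M (t + s) := uu_mono M (by omega)
  obtain ⟨e1, e2⟩ := Ico_split m1 (uu_mono M (show t + s ≤ t + 2 * s by omega))
  rw [e1, Eb_union α e2]
  have a1 := Eb_mono hα0 (Ico (uu M t) (uu M (t + s)))
    (G := fun Y => Eb α (Ico (uu M (t + s)) (uu M (t + 2 * s)))
      (fun Z => ind ((W + 1) * uu M (t + s) ∈ sums (X ∪ (Y ∪ Z)))))
    (F := fun Y => q + (-(q / W)) * WW M (uu M (t + s)) (X ∪ Y)) (fun Y hY => by
      have b0 := WW_nonneg M (uu M (t + s)) (X ∪ Y)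
      by_cases hc : WW M (uu M (t + s)) (X ∪ Y) ≤ W
      · have b1 := hit hα0 (M := M) (u := uu M (t + s)) (v := uu M (t + 2 * s)) (by omega)
          (le_trans (by omega) (le_uu M _)) hW2
          (by rw [show t + 2 * s = t + s + s by ring]; exact uu_big (by omega) hs _)
          (lt_of_union m1 hX hY) hc
        simp only [← union_assoc]
        have : 0 ≤ q / W * WW M (uu M (t + s)) (X ∪ Y) := by positivity
        linarith
      · refine le_trans ?_ (Eb_nonneg hα0 _ fun _ => ind_nonneg _)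
        have b1 := mul_le_mul_of_nonneg_left (not_le.1 hc).le (show 0 ≤ q / W by positivity)
        rw [div_mul_cancel₀ _ hW0.ne'] at b1
        linarith)
  rw [Eb_affine] at a1
  refine le_trans ?_ a1
  have a2 : Eb α (Ico (uu M t) (uu M (t + s))) (fun Y => WW M (uu M (t + s)) (X ∪ Y)) ≤ W / 2 := by
    linarith [h s t X hX]
  have a3 := mul_le_mul_of_nonneg_left a2 (show 0 ≤ q / W by positivity)
  have a4 : q / W * (W / 2) = q / 2 := by field_simp
  linarith

/-- No common subset sum in `[1, U)`. -/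
def Fail {N : ℕ} (U : ℕ) (Z : Fin N → Finset ℕ) : Prop :=
  ¬ ∃ k, 1 ≤ k ∧ k < U ∧ ∀ i, k ∈ sums (Z i)

lemma Fail.anti {N U : ℕ} {Z Z' : Fin N → Finset ℕ} (h : ∀ i, Z i ⊆ Z' i) (hf : Fail U Z') :
    Fail U Z := fun ⟨k, h1, h2, h3⟩ => hf ⟨k, h1, h2, fun i => sums_mono (h i) (h3 i)⟩

lemma fail_bound (hα : 1 / Real.log 2 < α) : ∃ (M s0 : ℕ) (ρ C q : ℝ), 2 ≤ M ∧ 0 < ρ ∧ ρ < 1 ∧
    0 < C ∧ 0 < q ∧ q ≤ 1 ∧ ∀ (N U s : ℕ), s0 ≤ s → ∀ (d t : ℕ) (X : Fin N → Finset ℕ),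
      uu M (t + 2 * s * d) ≤ U → (∀ i, ∀ j ∈ X i, j < uu M t) →
      EN α N (Ico (uu M t) (uu M (t + 2 * s * d))) (fun Y => ind (Fail U (fun i => X i ∪ Y i))) ≤
        (1 - q ^ N) ^ d + ρ ^ s * (∑ i, WW M (uu M t) (X i) + d * (N * C)) := by
  have hα0 : 0 < α := lt_trans (one_div_pos.2 (Real.log_pos (by norm_num))) hα
  obtain ⟨M, W, ρ, C, q, hM, hρ0, hρ1, hC, hq0, hq1, h⟩ := epoch hα
  refine ⟨M, 2 * M * (W + 1), ρ, C, q, hM, hρ0, hρ1, hC, hq0, hq1, fun N U s hs d => ?_⟩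
  have hr : 0 ≤ 1 - q ^ N := sub_nonneg.2 (pow_le_one₀ hq0.le hq1)
  have hρs : 0 < ρ ^ s := by positivity
  have hle : ∀ (B : Finset ℕ) (X : Fin N → Finset ℕ),
      EN α N B (fun Y => ind (Fail U (fun i => X i ∪ Y i))) ≤ 1 := fun B X =>
    (EN_mono hα0 B (G := fun _ => 1) fun _ _ => ind_le_one _).trans (EN_const α B 1).le
  induction d with
  | zero =>
    intro t X _ _
    have : 0 ≤ ∑ i, WW M (uu M t) (X i) := sum_nonneg fun _ _ => WW_nonneg _ _ _
    refine (hle _ X).trans ?_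
    simp only [pow_zero, Nat.cast_zero, zero_mul, add_zero]
    nlinarith
  | succ d ih =>
    intro t X hU hX
    by_cases hc : ∀ i, ρ ^ s * WW M (uu M t) (X i) ≤ 1
    swap
    · push Not at hc
      obtain ⟨i, hi⟩ := hc
      have a1 := single_le_sum (f := fun i => WW M (uu M t) (X i))
        (fun _ _ => WW_nonneg _ _ _) (mem_univ i)
      have a2 := mul_le_mul_of_nonneg_left a1 hρs.le
      have a3 : 0 ≤ ρ ^ s * (((d + 1 : ℕ) : ℝ) * (N * C)) := by positivity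
      have a4 := pow_nonneg hr (d + 1)
      refine (hle _ X).trans ?_
      rw [mul_add]
      linarith
    have et : t + 2 * s * (d + 1) = t + 2 * s + 2 * s * d := by ring
    rw [et] at hU ⊢
    have m1 : uu M t ≤ uu M (t + 2 * s) := uu_mono M (by omega)
    have m2 : uu M (t + 2 * s) ≤ uu M (t + 2 * s + 2 * s * d) := uu_mono M (by omega)
    obtain ⟨e1, e2⟩ := Ico_split m1 m2
    rw [e1, EN_union α e2]
    set k := (W + 1) * uu M (t + s) with hk
    have hk1 : 1 ≤ k := Nat.mul_pos (by omega) (lt_of_lt_of_le (by omega) (le_uu M _))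
    have hk2 : k < U := by
      have := uu_big (M := M) (by omega) hs (t + s)
      rw [show t + s + s = t + 2 * s by ring] at this
      omega
    have a1 := EN_mono hα0 (Ico (uu M t) (uu M (t + 2 * s)))
      (F := fun Y => EN α N (Ico (uu M (t + 2 * s)) (uu M (t + 2 * s + 2 * s * d)))
        (fun Z => ind (Fail U (fun i => X i ∪ (Y i ∪ Z i)))))
      (G := fun Y => ((1 - q ^ N) ^ d + (-(1 - q ^ N) ^ d) * ∏ i, ind (k ∈ sums (X i ∪ Y i))) +
        (ρ ^ s * (d * (N * C)) + ρ ^ s * ∑ i, WW M (uu M (t + 2 * s)) (X i ∪ Y i)))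
      (fun Y hY => by
        have b0 : 0 ≤ ∑ i, WW M (uu M (t + 2 * s)) (X i ∪ Y i) :=
          sum_nonneg fun _ _ => WW_nonneg _ _ _
        by_cases hk' : ∀ i, k ∈ sums (X i ∪ Y i)
        · have b1 : ∀ Z : Fin N → Finset ℕ, ind (Fail U (fun i => X i ∪ (Y i ∪ Z i))) = 0 :=
            fun Z => ind_neg fun hf => hf ⟨k, hk1, hk2, fun i => sums_mono
              (union_subset_union_right subset_union_left) (hk' i)⟩
          simp only [b1, EN_const, ind_pos (hk' _), prod_const_one]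
          have : 0 ≤ ρ ^ s * (d * (N * C)) := by positivity
          nlinarith
        · push Not at hk'
          obtain ⟨i, hi⟩ := hk'
          rw [prod_eq_zero (mem_univ i) (ind_neg hi)]
          have := ih (t + 2 * s) (fun i => X i ∪ Y i) hU
            (fun i => lt_of_union m1 (hX i) (hY i))
          simp only [← union_assoc]
          linarith)
    refine a1.trans ?_
    rw [EN_add, EN_affine, EN_affine,
      EN_prod α _ (fun i Y => ind (k ∈ sums (X i ∪ Y))),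
      EN_sum_single α _ (fun i Y => WW M (uu M (t + 2 * s)) (X i ∪ Y))]
    have a2 : q ^ N ≤ ∏ i, Eb α (Ico (uu M t) (uu M (t + 2 * s)))
        (fun Y => ind (k ∈ sums (X i ∪ Y))) := by
      calc q ^ N = ∏ _i : Fin N, q := by simp
        _ ≤ _ := prod_le_prod (fun _ _ => hq0.le) fun i _ => (h s t (X i) (hX i)).2 hs (hc i)
    have a3 := sum_le_sum (s := univ) fun i _ => (h (2 * s) t (X i) (hX i)).1
    rw [sum_add_distrib, sum_const, card_univ, Fintype.card_fin, nsmul_eq_mul] at a3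
    have a4 := mul_le_mul_of_nonneg_left a3 hρs.le
    have a5 := mul_le_mul_of_nonneg_left a2 (pow_nonneg hr d)
    rw [pow_succ]
    push_cast
    nlinarith

section Group

open Equiv Equiv.Perm Pool.Agent.Results.MP_afae70_pr.LogSuffices

lemma exists_invariant {X : Type} [Fintype X] [DecidableEq X] (σ : Perm X) (T : Finset ℕ)
    (hT : ∀ j ∈ T, j ∈ σ.partition.parts ∧ 2 ≤ j) :
    ∃ S : Finset X, (∀ x ∈ S, σ x ∈ S) ∧ S.card = ∑ j ∈ T, j := by
  have h1 : ∀ j ∈ T, ∃ c ∈ σ.cycleFactorsFinset, c.support.card = j := by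
    intro j hj
    have hc : j ∈ σ.cycleType := by
      rw [← filter_parts_partition_eq_cycleType, Multiset.mem_filter]; exact hT j hj
    rw [cycleType_def, Multiset.mem_map] at hc
    obtain ⟨c, hc1, hc2⟩ := hc
    exact ⟨c, hc1, hc2⟩
  choose! c hc1 hc2 using h1
  refine ⟨T.biUnion (fun j => (c j).support), ?_, ?_⟩
  · intro x hx
    obtain ⟨j, hj, hx⟩ := mem_biUnion.1 hx
    refine mem_biUnion.2 ⟨j, hj, ?_⟩
    rw [← (mem_cycleFactorsFinset_iff.1 (hc1 j hj)).2 x hx]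
    exact apply_mem_support.2 hx
  · rw [card_biUnion, sum_congr rfl hc2]
    intro i hi j hj hij
    apply Perm.Disjoint.disjoint_support
    apply cycleFactorsFinset_pairwise_disjoint σ (hc1 i hi) (hc1 j hj)
    intro h
    apply hij
    rw [← hc2 i hi, ← hc2 j hj, h]

lemma not_invGen {n N k : ℕ} (σ : Fin N → Perm (Fin n)) (h1 : 1 ≤ k) (h2 : k < n)
    (h : ∀ i, ∃ S : Finset (Fin n), (∀ x ∈ S, σ i x ∈ S) ∧ S.card = k) : ¬ InvGen σ := by
  obtain ⟨S0, -, hS0⟩ := exists_subset_card_eq (s := (univ : Finset (Fin n))) (n := k)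
    (by simpa using h2.le)
  choose S hS1 hS2 using h
  choose τ hτ using fun i => Perm.exists_map_finset_eq (S i) S0 (by rw [hS2, hS0])
  intro hgen
  have key : ∀ g ∈ Subgroup.closure (Set.range fun i => τ i * σ i * (τ i)⁻¹),
      ∀ x ∈ S0, g x ∈ S0 := by
    intro g hg
    induction hg using Subgroup.closure_induction with
    | mem g hg =>
      obtain ⟨i, rfl⟩ := hg
      intro x hx
      rw [← hτ i] at hx ⊢
      obtain ⟨z, hz, rfl⟩ := Finset.mem_map.1 hx
      exact Finset.mem_map.2 ⟨σ i z, hS1 i z hz, by simp⟩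
    | one => exact fun x hx => hx
    | mul a b _ _ ha hb => exact fun x hx => ha _ (hb x hx)
    | inv a _ ha => exact fun x hx => perm_symm_on_of_perm_on_finset ha hx
  obtain ⟨x, hx⟩ : S0.Nonempty := card_pos.1 (by omega)
  obtain ⟨y, hy⟩ : S0ᶜ.Nonempty := card_pos.1 (by rw [card_compl, Fintype.card_fin]; omega)
  have := key (swap x y) (by rw [hgen τ]; trivial) x hx
  rw [swap_apply_left] at this
  exact mem_compl.1 hy this

lemma prob_le (hα : 1 / Real.log 2 < α) : ∃ (M s0 A : ℕ) (K ρ C q : ℝ), 1 ≤ K ∧ 0 < ρ ∧ ρ < 1 ∧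
    0 < C ∧ 0 < q ∧ q ≤ 1 ∧ ∀ n N s d : ℕ, s0 ≤ s → 2 ^ ((M + 2 * s * d) * (A + 1)) ≤ n →
      prob α n N ≤ K ^ N * ((1 - q ^ N) ^ d + ρ ^ s * (N * M + d * (N * C))) := by
  have hα0 : 0 < α := lt_trans (one_div_pos.2 (Real.log_pos (by norm_num))) hα
  have hα1 : 4 / 3 ≤ α := by
    refine le_trans ?_ hα.le
    rw [le_div_iff₀ (Real.log_pos (by norm_num))]
    linarith [Real.log_two_lt_d9]
  obtain ⟨M, s0, ρ, C, q, hM, hρ0, hρ1, hC, hq0, hq1, h⟩ := fail_bound hα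
  obtain ⟨K, A, hK, hT⟩ := transfer hα1
  refine ⟨M, s0, A, K, ρ, C, q, hK, hρ0, hρ1, hC, hq0, hq1, fun n N s d hs hn => ?_⟩
  set U := uu M (0 + 2 * s * d) with hU
  have u1 : M ≤ U := le_uu M _
  have u2 : U ≤ 2 ^ (M + 2 * s * d) := by
    rw [pow_add, hU, zero_add]
    exact (uu_le M _).trans (Nat.mul_le_mul_right _ Nat.lt_two_pow_self.le)
  have u3 : U ^ (A + 1) ≤ n := by
    rw [pow_mul] at hn
    exact (Nat.pow_le_pow_left u2 _).trans hn
  have u4 : U ≤ n := (Nat.le_self_pow (by omega) U).trans u3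
  have u5 : U ^ A ≤ n + 1 :=
    (Nat.pow_le_pow_right (by omega) (by omega)).trans (u3.trans (by omega))
  obtain ⟨b, hb⟩ : ∃ b, U = b + 1 := ⟨U - 1, by omega⟩
  have a1 := transfer_N hα0 (N := N) (Ico 1 U) (by
    rw [hb]; exact hT b n (by omega) (by rwa [← hb]))
    (fun Z => ind (Fail U (fun i => Z i ∩ Ico M U))) (fun _ => ind_nonneg _)
  have a2 : prob α n N ≤ ∑ σ : Fin N → Perm (Fin n), (∏ i, ewens α (σ i)) *
      ind (Fail U (fun i => ((σ i).partition.parts.toFinset ∩ Ico 1 U) ∩ Ico M U)) := by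
    rw [prob_eq]
    apply sum_le_sum
    intro σ _
    apply mul_le_mul_of_nonneg_left _ (weight_nonneg hα0 σ)
    apply ind_mono
    rintro hgen ⟨k, k1, k2, k3⟩
    refine not_invGen σ k1 (by omega) (fun i => ?_) hgen
    obtain ⟨T, hT1, hT2⟩ := mem_image.1 (k3 i)
    rw [← hT2]
    apply exists_invariant
    intro j hj
    have := mem_powerset.1 hT1 hj
    simp only [mem_inter, Multiset.mem_toFinset, mem_Ico] at this
    exact ⟨this.1.1, by omega⟩
  refine a2.trans (a1.trans (mul_le_mul_of_nonneg_left ?_ (by positivity)))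
  obtain ⟨e1, e2⟩ := Ico_split (show 1 ≤ M by omega) u1
  rw [e1, EN_union α e2]
  refine (EN_mono hα0 _ fun X _ => ?_).trans (EN_const α _ _).le
  have a3 := h N U s hs d 0 (fun _ => ∅) le_rfl (by simp)
  have a4 : WW M M ∅ ≤ M := by
    have hM1 : (1 : ℝ) ≤ M := by exact_mod_cast (by omega : 1 ≤ M)
    simp only [WW, sums, powerset_empty, image_singleton, card_singleton, Nat.cast_one, div_one,
      sum_empty, zero_div, add_zero]
    calc _ ≤ (M : ℝ) ^ (1 : ℝ) := Real.rpow_le_rpow_of_exponent_le hM1 (inv_le_one_of_one_le₀ hM1)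
      _ = _ := Real.rpow_one _
  rw [sum_const, card_univ, Fintype.card_fin, nsmul_eq_mul] at a3
  change EN α N (Ico M U) _ ≤ _ + _ * (_ * WW M M ∅ + _) at a3
  refine (EN_mono hα0 _ fun Y hY => ind_mono (Fail.anti fun i => ?_)).trans (a3.trans ?_)
  · rw [empty_union]
    exact subset_inter subset_union_right (hY i)
  · gcongr

theorem lower (hα : 1 / Real.log 2 < α) : ∃ β : ℝ, 0 < β ∧ ∀ N : ℕ → ℕ,
    (∀ᶠ n : ℕ in atTop, (N n : ℝ) ≤ β * Real.log (Real.log n)) →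
    Tendsto (fun n : ℕ => prob α n (N n)) atTop (nhds 0) := by
  have hα0 : 0 < α := lt_trans (one_div_pos.2 (Real.log_pos (by norm_num))) hα
  obtain ⟨M, s0, A, K, ρ, C, q, hK, hρ0, hρ1, hC, hq0, hq1, h⟩ := prob_le hα
  set R := 2 * K / q with hR
  have hRq : R * q = 2 * K := by rw [hR]; field_simp
  have hR0 : 0 < R := by positivity
  have hRK : 2 * K ≤ R := by nlinarith
  have hlR : 0 < Real.log R := Real.log_pos (by linarith)
  refine ⟨1 / (8 * Real.log R), by positivity, fun N' hN' => ?_⟩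
  set τ := max ρ (Real.exp (-(1 / 2))) with hτ
  have hτ0 : 0 < τ := lt_max_of_lt_left hρ0
  have hτ1 : τ < 1 := max_lt hρ1 (Real.exp_lt_one_iff.2 (by norm_num))
  let w : ℕ → ℕ := fun n => Nat.nthRoot 8 (Nat.log 2 n)
  have hw : Tendsto w atTop atTop := by
    rw [tendsto_atTop]
    intro b
    filter_upwards [eventually_ge_atTop (2 ^ (b ^ 8))] with n hn
    exact (Nat.le_nthRoot_iff (by norm_num)).2 (Nat.le_log_of_pow_le (by norm_num) hn)
  have hlim := ((tendsto_pow_const_mul_const_pow_of_abs_lt_one 4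
    (show |τ| < 1 by rwa [abs_of_pos hτ0])).const_mul (2 + 4 * (M + C))).comp hw
  rw [mul_zero] at hlim
  refine tendsto_of_tendsto_of_tendsto_of_le_of_le' tendsto_const_nhds hlim
    (Eventually.of_forall fun n => prob_nonneg hα0 _ _) ?_
  filter_upwards [hw.eventually_ge_atTop (s0 + M + 3 * (A + 1)), eventually_ge_atTop 2, hN']
    with n hwn hn hN
  have a1 : w n ^ 8 ≤ Nat.log 2 n := (Nat.le_nthRoot_iff (by norm_num)).1 le_rfl
  have a2 : Nat.log 2 n < (w n + 1) ^ 8 := Nat.lt_pow_nthRoot_add_one (by norm_num) _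
  have a3 : 2 ^ Nat.log 2 n ≤ n := Nat.pow_log_le_self 2 (by omega)
  have a4 : n < 2 ^ (Nat.log 2 n + 1) := Nat.lt_pow_succ_log_self (by norm_num) n
  simp only [Function.comp]
  generalize w n = v at *
  generalize N' n = N at *
  have v1 : 1 ≤ v := by omega
  have v2 : v ≤ v ^ 2 := Nat.le_self_pow (by norm_num) v
  have v4 : v ≤ v ^ 4 := Nat.le_self_pow (by norm_num) v
  have b1 : (M + 2 * v ^ 2 * v ^ 2) * (A + 1) ≤ v ^ 8 := by
    have c1 : M + 2 * v ^ 2 * v ^ 2 ≤ 3 * v ^ 4 := by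
      have : 2 * v ^ 2 * v ^ 2 = 2 * v ^ 4 := by ring
      omega
    calc _ ≤ 3 * v ^ 4 * (A + 1) := Nat.mul_le_mul_right _ c1
      _ = v ^ 4 * (3 * (A + 1)) := by ring
      _ ≤ v ^ 4 * v ^ 4 := Nat.mul_le_mul_left _ (by omega)
      _ = _ := by ring
  refine (h n N (v ^ 2) (v ^ 2) (by omega)
    ((Nat.pow_le_pow_right (by norm_num) (b1.trans a1)).trans a3)).trans ?_
  have r1 : (1 : ℝ) ≤ v := by exact_mod_cast v1
  have b2 : Real.log (Real.log n) ≤ 8 * Real.log (v + 1) := by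
    have c0 : (1 : ℝ) < n := by exact_mod_cast hn
    have c1 : (n : ℝ) ≤ 2 ^ (Nat.log 2 n + 1) := by exact_mod_cast a4.le
    have c2 := Real.log_le_log (by linarith) c1
    rw [Real.log_pow] at c2
    have c3 : ((Nat.log 2 n + 1 : ℕ) : ℝ) ≤ (v + 1) ^ 8 := by exact_mod_cast a2
    have c4 := Real.log_two_lt_d9
    have c5 : (0 : ℝ) ≤ (Nat.log 2 n + 1 : ℕ) := by positivity
    have c6 : Real.log n ≤ (v + 1) ^ 8 := by nlinarith
    have c7 := Real.log_le_log (Real.log_pos c0) c6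
    rw [Real.log_pow] at c7
    exact_mod_cast c7
  have b3 : R ^ N ≤ v + 1 := by
    have c1 : (N : ℝ) ≤ 1 / (8 * Real.log R) * (8 * Real.log (v + 1)) :=
      hN.trans (mul_le_mul_of_nonneg_left b2 (by positivity))
    have c2 : 1 / (8 * Real.log R) * (8 * Real.log (v + 1)) = Real.log (v + 1) / Real.log R := by
      field_simp
    rw [c2, le_div_iff₀ hlR, ← Real.log_pow] at c1
    exact (Real.log_le_log_iff (by positivity) (by positivity)).1 c1
  have b4 : K ^ N ≤ 2 * v := by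
    have : K ^ N ≤ R ^ N := pow_le_pow_left₀ (by linarith) (by linarith) N
    linarith
  have b5 : (N : ℝ) ≤ 2 * v := by
    have c1 : (N : ℝ) ≤ 2 ^ N := by exact_mod_cast Nat.lt_two_pow_self.le
    have : (2 : ℝ) ^ N ≤ R ^ N := pow_le_pow_left₀ (by linarith) (by linarith) N
    linarith
  have b6 : 1 ≤ 2 * v * q ^ N := by
    have c1 : 1 ≤ (R * q) ^ N := one_le_pow₀ (by linarith)
    rw [mul_pow] at c1
    have c2 := mul_le_mul_of_nonneg_right (show R ^ N ≤ 2 * v by linarith) (pow_pos hq0 N).le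
    linarith
  have b7 : (1 - q ^ N) ^ (v ^ 2) ≤ τ ^ v := by
    have c1 : 1 - q ^ N ≤ Real.exp (-q ^ N) := by linarith [Real.add_one_le_exp (-q ^ N)]
    calc _ ≤ Real.exp (-q ^ N) ^ (v ^ 2) :=
          pow_le_pow_left₀ (sub_nonneg.2 (pow_le_one₀ hq0.le hq1)) c1 _
      _ ≤ Real.exp (-(1 / 2)) ^ v := by
          rw [← Real.exp_nat_mul, ← Real.exp_nat_mul]
          apply Real.exp_le_exp.2
          push_cast
          nlinarith
      _ ≤ _ := pow_le_pow_left₀ (Real.exp_pos _).le (le_max_right _ _) _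
  have b8 : ρ ^ (v ^ 2) ≤ τ ^ v :=
    (pow_le_pow_of_le_one hρ0.le hρ1.le v2).trans (pow_le_pow_left₀ hρ0.le (le_max_left _ _) _)
  have r2 : (1 : ℝ) ≤ v ^ 2 := one_le_pow₀ r1
  have r3 : (1 : ℝ) ≤ v ^ 3 := one_le_pow₀ r1
  have b9 : (N : ℝ) * M + ((v ^ 2 : ℕ) : ℝ) * (N * C) ≤ 2 * v ^ 3 * (M + C) := by
    push_cast
    calc (N : ℝ) * M + v ^ 2 * (N * C) ≤ (2 * v) * (v ^ 2 * M) + v ^ 2 * ((2 * v) * C) := by
          gcongr
          exact le_mul_of_one_le_left (by positivity) r2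
      _ = _ := by ring
  have t0 := pow_pos hτ0 v
  have hr : 0 ≤ (1 - q ^ N) ^ (v ^ 2) := pow_nonneg (sub_nonneg.2 (pow_le_one₀ hq0.le hq1)) _
  calc _ ≤ (2 * v) * (v ^ 3 * τ ^ v + τ ^ v * (2 * v ^ 3 * (M + C))) := by
        gcongr
        exact b7.trans (le_mul_of_one_le_left t0.le r3)
    _ = _ := by ring

end Group

end Pool.Agent.MP_afae70_pr.LL
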